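import Mathlib
import Pool.Agent.R931.ZF.Lin
import Pool.Agent.R931.ZF.Local
import Pool.Agent.Y114.RM.Torus

/-!
# Matrices over the algebraic closure and base change to the complex numbers
-/

set_option autoImplicit false
set_option linter.unusedSectionVars false

namespace Pool.Agent.R931.ZG

open Module Polynomial TensorProduct Pool.Agent.Y114.RM Pool.Agent.R931.ZL Pool.Agent.R931.ZF
open Pool.Agent.Y497.ZO (Mt)
open Pool.Agent.Y936.SS (Om)

section mat

variable {k Ω : Type} [Field k] [Field Ω] [Algebra k Ω] [Algebra k ℂ] (σ : Ω →ₐ[k] ℂ) {n : Type}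
  [Fintype n] [DecidableEq n]

theorem mO_sig (A : Matrix n n k) (u : n → Ω) :
    mO k ℂ n A (fun j => σ (u j)) = fun j => σ (mO k Ω n A u j) := by
  funext i
  rw [mO_apply', mO_apply', Matrix.mulVec, Matrix.mulVec, dotProduct, dotProduct, map_sum]
  refine Finset.sum_congr rfl fun j _ => ?_
  rw [map_mul, Matrix.map_apply, Matrix.map_apply, AlgHom.commutes]

/-- a matrix over `Ω` commutes with the matrices over `k` which commute with all its images under
linear functionals -/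
theorem comm_of_functionals {Q : Matrix n n Ω} {A : Matrix n n k}
    (h : ∀ π : Ω →ₗ[k] k, A * (Q.map π) = (Q.map π) * A) :
    A.map (algebraMap k Ω) * Q = Q * A.map (algebraMap k Ω) := by
  ext i j
  rw [← sub_eq_zero]
  have h1 : ∀ π : Ω →ₗ[k] k, π ((A.map (algebraMap k Ω) * Q) i j -
      (Q * A.map (algebraMap k Ω)) i j) = 0 := by
    intro π
    have h2 := congrFun (congrFun (h π) i) j
    rw [map_sub, sub_eq_zero]
    rw [Matrix.mul_apply, Matrix.mul_apply] at h2 ⊢
    rw [map_sum, map_sum]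
    refine Eq.trans (Finset.sum_congr rfl fun l _ => ?_) (h2.trans
      (Finset.sum_congr rfl fun l _ => ?_))
    · rw [Matrix.map_apply, Matrix.map_apply, ← Algebra.smul_def, map_smul, smul_eq_mul]
    · rw [Matrix.map_apply, Matrix.map_apply, mul_comm (Q i l), ← Algebra.smul_def, map_smul,
        smul_eq_mul, mul_comm]
  exact (Module.forall_dual_apply_eq_zero_iff k _).1 h1

theorem functionals_of_comm {Q : Matrix n n Ω} {A : Matrix n n k}
    (h : A.map (algebraMap k Ω) * Q = Q * A.map (algebraMap k Ω)) (π : Ω →ₗ[k] k) :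
    A * (Q.map π) = (Q.map π) * A := by
  ext i j
  have h2 := congrArg π (congrFun (congrFun h i) j)
  rw [Matrix.mul_apply, Matrix.mul_apply, map_sum, map_sum] at h2
  rw [Matrix.mul_apply, Matrix.mul_apply]
  refine Eq.trans (Finset.sum_congr rfl fun l _ => ?_) (h2.trans
      (Finset.sum_congr rfl fun l _ => ?_))
  · rw [Matrix.map_apply, Matrix.map_apply, ← Algebra.smul_def, map_smul, smul_eq_mul]
  · rw [Matrix.map_apply, Matrix.map_apply, mul_comm (Q i l), ← Algebra.smul_def, map_smul,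
        smul_eq_mul, mul_comm]

/-- from the complex numbers to `Ω` -/
theorem comm_of_sig {Q : Matrix n n Ω} {A : Matrix n n k}
    (h : A.map (algebraMap k ℂ) * Q.map σ = Q.map σ * A.map (algebraMap k ℂ)) :
    A.map (algebraMap k Ω) * Q = Q * A.map (algebraMap k Ω) := by
  have h1 : A.map (algebraMap k ℂ) = (A.map (algebraMap k Ω)).map σ := by
    rw [Matrix.map_map]
    congr 1
    funext x
    exact (σ.commutes x).symm
  rw [h1] at h
  have h2 : ∀ B C : Matrix n n Ω, (B * C).map σ = B.map σ * C.map σ := fun B C =>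
    Matrix.map_mul (f := (σ : Ω →+* ℂ))
  rw [← h2, ← h2] at h
  exact Matrix.map_injective σ.toRingHom.injective h

end mat

section phi

variable {ℓ N : ℕ} [Fact ℓ.Prime] [Algebra ℚ_[ℓ] ℂ]

/-- the base change of the representation space -/
noncomputable def Phi (ℓ N : ℕ) [Fact ℓ.Prime] [Algebra ℚ_[ℓ] ℂ] :
    (ℂ ⊗[ℚ_[ℓ]] (∀ _ : Unit, Fin N → ℚ_[ℓ])) ≃ₗ[ℂ] (Fin N → ℂ) :=
  ((uu ℓ N).symm.baseChange ℚ_[ℓ] ℂ _ _) ≪≫ₗ (TensorProduct.piScalarRight ℚ_[ℓ] ℂ ℂ (Fin N))

theorem Phi_tmul (c : ℂ) (x : ∀ _ : Unit, Fin N → ℚ_[ℓ]) (i : Fin N) :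
    Phi ℓ N (c ⊗ₜ[ℚ_[ℓ]] x) i = algebraMap ℚ_[ℓ] ℂ (x () i) * c := by
  rw [← Algebra.smul_def]
  rfl

theorem Phi_lin (A : Mt ℓ N) (u : ℂ ⊗[ℚ_[ℓ]] (∀ _ : Unit, Fin N → ℚ_[ℓ])) :
    Phi ℓ N ((lin A).baseChange ℂ u) = mO ℚ_[ℓ] ℂ (Fin N) A (Phi ℓ N u) := by
  induction u with
  | zero => simp only [map_zero]
  | add x y hx hy => simp only [map_add, hx, hy]
  | tmul c x =>
    funext i
    rw [LinearMap.baseChange_tmul, Phi_tmul, lin_apply, mO_apply', Matrix.mulVec, Matrix.mulVec,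
      dotProduct, dotProduct, map_sum, Finset.sum_mul]
    refine Finset.sum_congr rfl fun j _ => ?_
    rw [map_mul, Matrix.map_apply, Phi_tmul, mul_assoc]

end phi

end Pool.Agent.R931.ZG
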