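import Mathlib
import Pool.Agent.R931.BD.Main

/-!
# Subalgebras of maximal rank, and the lattice generated by the roots
-/

set_option autoImplicit false

namespace Pool.Agent.R931.ZG

open Module Polynomial Pool.Agent.Y114.RM Pool.Agent.Y212.RM Pool.Agent.R931.BD

/-- a lowest weight vector does not have a positive weight -/
theorem lowest {W : Type} [AddCommGroup W] [Module ℂ W] [FiniteDimensional ℂ W]
    {E F H : End ℂ W} (h1 : E * F - F * E = H) (h2 : H * E - E * H = (2 : ℂ) • E) {c : ℂ}
    (hc : pos c) {x : W} (hx : H x = c • x) (hF : F x = 0) : x = 0 := by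
  by_contra hx0
  have hcn : ∀ n : ℕ, c + n ≠ 0 := by
    intro n h
    have hre : c.re + n = 0 := by simpa using congrArg Complex.re h
    have him : c.im = 0 := by simpa using congrArg Complex.im h
    have hn : (0 : ℝ) ≤ n := Nat.cast_nonneg n
    rcases hc with h | ⟨-, h⟩
    · linarith
    · linarith
  have hEF : ∀ y, F (E y) = E (F y) - H y := by
    intro y
    have h3 := LinearMap.congr_fun h1 y
    rw [LinearMap.sub_apply, Module.End.mul_apply, Module.End.mul_apply] at h3
    rw [← h3]
    abel
  have hHE : ∀ y, H (E y) = E (H y) + (2 : ℂ) • E y := by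
    intro y
    have h3 := LinearMap.congr_fun h2 y
    rw [LinearMap.sub_apply, Module.End.mul_apply, Module.End.mul_apply,
      LinearMap.smul_apply] at h3
    rw [← h3]
    abel
  have key : ∀ n : ℕ, (E ^ n) x ≠ 0 ∧ H ((E ^ n) x) = (c + 2 * n) • (E ^ n) x ∧
      F ((E ^ (n + 1)) x) = (-((n + 1) * (c + n))) • (E ^ n) x := by
    intro n
    induction n with
    | zero =>
      refine ⟨?_, ?_, ?_⟩
      · rw [pow_zero]
        exact hx0
      · rw [pow_zero, Module.End.one_apply, hx]
        simp
      · rw [zero_add, pow_one, hEF, hF, map_zero, hx, pow_zero, Module.End.one_apply, zero_sub,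
          ← neg_smul]
        congr 1
        simp
    | succ n ih =>
      obtain ⟨i1, i2, i3⟩ := ih
      have hs : ∀ m : ℕ, (E ^ (m + 1)) x = E ((E ^ m) x) := fun m => by
        rw [pow_succ', Module.End.mul_apply]
      have j1 : (E ^ (n + 1)) x ≠ 0 := by
        intro h0
        rw [h0, map_zero] at i3
        have h3 := (smul_eq_zero.1 i3.symm).resolve_right i1
        rw [neg_eq_zero, mul_eq_zero] at h3
        rcases h3 with h3 | h3
        · have : ((n : ℂ) + 1) ≠ 0 := by exact_mod_cast Nat.succ_ne_zero n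
          exact this h3
        · exact hcn n h3
      have j2 : H ((E ^ (n + 1)) x) = (c + 2 * ((n + 1 : ℕ) : ℂ)) • (E ^ (n + 1)) x := by
        rw [hs, hHE, i2, map_smul, ← add_smul]
        congr 1
        push_cast
        ring
      refine ⟨j1, j2, ?_⟩
      rw [hs (n + 1), hEF, i3, map_smul, ← hs, j2, ← sub_smul]
      congr 1
      push_cast
      ring
  have hinf : (Set.range fun n : ℕ => c + 2 * (n : ℂ)).Infinite := by
    refine Set.infinite_range_of_injective fun m n hmn => ?_
    have h3 : (2 : ℂ) * m = 2 * n := add_left_cancel hmn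
    have h4 := mul_left_cancel₀ two_ne_zero h3
    exact_mod_cast h4
  refine hinf ((End.finite_hasEigenvalue H).subset ?_)
  rintro _ ⟨n, rfl⟩
  exact End.hasEigenvalue_of_hasEigenvector
    ⟨End.mem_eigenspace_iff.2 (key n).2.1, (key n).1⟩

variable {V : Type} [AddCommGroup V] [Module ℂ V] [FiniteDimensional ℂ V]
  {G L t : Submodule ℂ (End ℂ V)}

/-- `β` is a weight of `L` -/
def IsWt (L t : Submodule ℂ (End ℂ V)) (β : t → ℂ) : Prop :=
  ∃ X ∈ L, X ≠ 0 ∧ ∀ a : t, (a : End ℂ V) * X - X * a = β a • X

omit [FiniteDimensional ℂ V] in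
theorem sum_eval (l : List (t → ℂ)) (a : t) : l.sum a = (l.map fun β => β a).sum := by
  induction l with
  | nil => rfl
  | cons β l ih => rw [List.sum_cons, List.map_cons, List.sum_cons, Pi.add_apply, ih]

theorem not_pos_sum (l : List ℂ) (h : ∀ c ∈ l, ¬ pos c) : ¬ pos l.sum := by
  induction l with
  | nil => exact not_pos_zero
  | cons c l ih =>
    rw [List.sum_cons]
    exact not_pos_add (h c List.mem_cons_self) (ih fun d hd => h d (List.mem_cons_of_mem _ hd))

theorem pos_two : pos (2 : ℂ) := Or.inl (by norm_num)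

omit [FiniteDimensional ℂ V] in
theorem perp_zero (TG : Tor G t) (TL : Tor L t) {e : End ℂ V} (he : e ∈ perp G L)
    (h : ∀ a : t, (a : End ℂ V) * e - e * a = 0) : e = 0 :=
  TL.nd e (TL.le (TG.cen e he.1 fun a ha => sub_eq_zero.1 (h ⟨a, ha⟩))) he.2

/-- a sum of weights of `L` is not a weight of the complement of `L` -/
theorem no_perp_wt (TG : Tor G t) (TL : Tor L t) (hLG : L ≤ G) (n : ℕ) :
    ∀ l : List (t → ℂ), l.length = n → (∀ β ∈ l, IsWt L t β) → ∀ e ∈ perp G L,
      (∀ a : t, (a : End ℂ V) * e - e * a = l.sum a • e) → e = 0 := by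
  classical
  induction n with
  | zero =>
    intro l hl _ e he hw
    rw [List.length_eq_zero_iff] at hl
    subst hl
    refine perp_zero TG TL he fun a => ?_
    rw [hw a]
    simp
  | succ n ih =>
    intro l hl hβ e he hw
    by_cases hz : ∀ a, l.sum a = 0
    · exact perp_zero TG TL he fun a => by rw [hw a, hz a, zero_smul]
    push Not at hz
    obtain ⟨a0, ha0⟩ := hz
    by_contra he0
    obtain ⟨f, hf, hfw, hf0, h, hht, hef, hhe, hhf⟩ :=
      perp_triple TG TL.lie TL.nd hLG TL.le he hw he0 ha0
    have h2 : l.sum ⟨h, hht⟩ = 2 := by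
      have h3 := hw ⟨h, hht⟩
      change h * e - e * h = _ at h3
      rw [hhe, ← ofNat_smul_eq_nsmul ℂ] at h3
      exact (smul_left_injective ℂ he0 h3).symm
    obtain ⟨β, hβl, hβp⟩ : ∃ β ∈ l, pos (β ⟨h, hht⟩) := by
      by_contra hcon
      push Not at hcon
      refine not_pos_sum (l.map fun β => β ⟨h, hht⟩) (fun c hc => ?_) ?_
      · obtain ⟨β, hβ, rfl⟩ := List.mem_map.1 hc
        exact hcon β hβ
      · rw [← sum_eval, h2]
        exact pos_two
    obtain ⟨X, hX, hX0, hXw⟩ := hβ β hβl
    have hZ : X * f - f * X ∈ perp G L := perp_lie TG.lie TL.lie hLG hX hf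
    have hZ0 : X * f - f * X ≠ 0 := by
      intro h0
      apply hX0
      refine lowest (E := adE e) (F := adE f) (H := adE h) ?_ ?_ hβp (x := X) ?_ ?_
      · rw [adE_comm, hef]
      · rw [adE_comm, hhe]
        refine LinearMap.ext fun Y => ?_
        rw [LinearMap.smul_apply, adE_apply, adE_apply, ofNat_smul_eq_nsmul ℂ, smul_mul_assoc,
          mul_smul_comm, smul_sub]
      · rw [adE_apply]
        exact hXw ⟨h, hht⟩
      · rw [adE_apply, ← neg_sub, h0, neg_zero]
    have hZw : ∀ a : t, (a : End ℂ V) * (X * f - f * X) - (X * f - f * X) * a =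
        (β a - l.sum a) • (X * f - f * X) := by
      intro a
      have h3 : (a : End ℂ V) * (X * f - f * X) - (X * f - f * X) * a =
          (a * X - X * a) * f + X * (a * f - f * a) - (a * f - f * a) * X -
            f * (a * X - X * a) := by noncomm_ring
      rw [h3, hXw a, hfw a, smul_mul_assoc, mul_smul_comm, smul_mul_assoc, mul_smul_comm, sub_smul,
        neg_smul, neg_smul, smul_sub, smul_sub]
      abel
    by_cases hz' : ∀ a, β a - l.sum a = 0
    · exact hZ0 (perp_zero TG TL hZ fun a => by rw [hZw a, hz' a, zero_smul])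
    push Not at hz'
    obtain ⟨a1, ha1⟩ := hz'
    obtain ⟨f', hf', hfw', hf0', -⟩ := perp_triple TG TL.lie TL.nd hLG TL.le
      (χ := fun a => β a - l.sum a) hZ hZw hZ0 (a0 := a1) ha1
    apply hf0'
    refine ih (l.erase β) (by rw [List.length_erase_of_mem hβl, hl]; rfl)
      (fun γ hγ => hβ γ (List.mem_of_mem_erase hγ)) f' hf' fun a => ?_
    rw [hfw' a]
    congr 1
    have h3 : β + (l.erase β).sum = l.sum := List.sum_erase hβl
    have h4 := congrFun h3 a
    rw [Pi.add_apply] at h4
    rw [← h4]
    ring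

/-- If `L` contains a maximal torus of `G` and the weights of `G` are in the lattice generated by the
weights of `L`, then `L = G`. -/
theorem eq_of_span (TG : Tor G t) (TL : Tor L t) (hLG : L ≤ G)
    (hspan : ∀ α : t → ℂ, ∀ e ∈ perp G L, e ≠ 0 →
      (∀ a : t, (a : End ℂ V) * e - e * a = α a • e) →
      α ∈ AddSubgroup.closure {β | IsWt L t β}) : L = G := by
  have hsym : ∀ β, IsWt L t β → IsWt L t (-β) := by
    rintro β ⟨X, hX, hX0, hw⟩
    obtain ⟨f, hf, hfw, htr⟩ := TL.exists_dual hX hw hX0
    refine ⟨f, hf, ?_, hfw⟩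
    rintro rfl
    rw [mul_zero, LinearMap.map_zero] at htr
    exact htr rfl
  have hlist : ∀ x ∈ AddSubgroup.closure {β | IsWt L t β},
      ∃ l : List (t → ℂ), (∀ β ∈ l, IsWt L t β) ∧ l.sum = x := by
    intro x hx
    induction hx using AddSubgroup.closure_induction with
    | mem x hx => exact ⟨[x], fun β hβ => by rw [List.mem_singleton.1 hβ]; exact hx, by simp⟩
    | zero => exact ⟨[], fun β hβ => absurd hβ List.not_mem_nil, rfl⟩
    | add x y _ _ hx hy =>
      obtain ⟨l, hl, rfl⟩ := hx
      obtain ⟨l', hl', rfl⟩ := hy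
      refine ⟨l ++ l', fun β hβ => ?_, List.sum_append⟩
      rcases List.mem_append.1 hβ with h | h
      · exact hl β h
      · exact hl' β h
    | neg x hx₀ hx =>
      obtain ⟨l, hl, rfl⟩ := hx
      refine ⟨l.map Neg.neg, fun β hβ => ?_, ?_⟩
      · obtain ⟨γ, hγ, rfl⟩ := List.mem_map.1 hβ
        exact hsym _ (hl γ hγ)
      · clear hl hx₀
        induction l with
        | nil => simp
        | cons γ l ih => rw [List.map_cons, List.sum_cons, List.sum_cons, ih, neg_add]
  have hperp : perp G L = ⊥ := by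
    rw [eq_bot_iff]
    intro X hX
    rw [Submodule.mem_bot]
    refine wt_induction t TG.diag TG.comm (perp G L)
      (fun a ha X hX => perp_lie TG.lie TL.lie hLG (TL.le ha) hX) (P := fun Y => Y = 0) rfl
      (fun X Y _ _ hX hY => by
        have hX' : X = 0 := hX
        have hY' : Y = 0 := hY
        change X + Y = 0
        rw [hX', hY', add_zero]) (fun χ Y hY hw => ?_) X hX
    by_contra hY0
    obtain ⟨l, hl, hsum⟩ := hlist χ (hspan χ Y hY hY0 hw)
    refine hY0 (no_perp_wt TG TL hLG l.length l rfl hl Y hY fun a => ?_)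
    rw [hsum]
    exact hw a
  refine le_antisymm hLG fun X hX => ?_
  obtain ⟨Y, hY, hXY⟩ := perp_split TL.nd hLG hX
  rw [hperp, Submodule.mem_bot, sub_eq_zero] at hXY
  rw [hXY]
  exact hY

end Pool.Agent.R931.ZG
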