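import Mathlib
import Pool.Agent.R931.ZG.Span
import Pool.Agent.R931.ZF.Endo

/-!
# Subspaces which are sums of weight spaces
-/

set_option autoImplicit false

namespace Pool.Agent.R931.ZG

open Module Polynomial Pool.Agent.Y114.RM Pool.Agent.Y212.RM Pool.Agent.R931.BD
  Pool.Agent.R931.ZF

variable {V : Type} [AddCommGroup V] [Module ℂ V] [FiniteDimensional ℂ V]
  {L t : Submodule ℂ (End ℂ V)} {I : Type} [Fintype I]

theorem wt_coord (b : Basis I ℂ V) {χ : I → t → ℂ}
    (hb : ∀ (a : t) i, (a : End ℂ V) (b i) = χ i a • b i) {X : End ℂ V} {ψ : t → ℂ}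
    (hw : ∀ a : t, (a : End ℂ V) * X - X * a = ψ a • X) {i j : I}
    (hne : b.repr (X (b i)) j ≠ 0) : χ j = χ i + ψ := by
  funext a
  have h1 := LinearMap.congr_fun (hw a) (b i)
  rw [LinearMap.sub_apply, Module.End.mul_apply, Module.End.mul_apply, hb a i, map_smul,
    LinearMap.smul_apply, sub_eq_iff_eq_add, ← add_smul] at h1
  have h2 := repr_diag b (fun i => hb a i) (X (b i)) j
  rw [h1, map_smul, Finsupp.smul_apply, smul_eq_mul] at h2
  have h3 := mul_right_cancel₀ hne h2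
  rw [Pi.add_apply, ← h3]
  ring

theorem coord_mem (TL : Tor L t) (b : Basis I ℂ V) {χ : I → t → ℂ}
    (hb : ∀ (a : t) i, (a : End ℂ V) (b i) = χ i a • b i) {X : End ℂ V} (hX : X ∈ L) {i j : I}
    (hne : b.repr (X (b i)) j ≠ 0) : χ j - χ i ∈ AddSubgroup.closure {β | IsWt L t β} := by
  refine wt_induction t TL.diag TL.comm L (fun a ha X hX => TL.lie a (TL.le ha) X hX)
    (P := fun X => b.repr (X (b i)) j ≠ 0 → χ j - χ i ∈ AddSubgroup.closure {β | IsWt L t β})
    ?_ ?_ ?_ X hX hne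
  · intro h
    exact absurd (by simp) h
  · intro X Y _ _ hX hY h
    by_cases h1 : b.repr (X (b i)) j = 0
    · refine hY fun h2 => h ?_
      rw [LinearMap.add_apply, map_add, Finsupp.add_apply, h1, h2, add_zero]
    · exact hX h1
  · intro ψ X hX hw h
    refine AddSubgroup.subset_closure ⟨X, hX, ?_, ?_⟩
    · rintro rfl
      exact h (by simp)
    · intro a
      rw [wt_coord b hb hw h, add_sub_cancel_left]
      exact hw a

theorem comm_of_closed (TL : Tor L t) (b : Basis I ℂ V) {χ : I → t → ℂ}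
    (hb : ∀ (a : t) i, (a : End ℂ V) (b i) = χ i a • b i) {s : Set I}
    (hs : ∀ i j, χ j - χ i ∈ AddSubgroup.closure {β | IsWt L t β} → (i ∈ s ↔ j ∈ s))
    {Q : End ℂ V} (hQ1 : ∀ i ∈ s, Q (b i) = b i) (hQ0 : ∀ i, i ∉ s → Q (b i) = 0) :
    ∀ X ∈ L, X * Q = Q * X := by
  classical
  intro X hX
  refine b.ext fun i => ?_
  rw [Module.End.mul_apply, Module.End.mul_apply]
  have h1 : Q (X (b i)) = ∑ j, b.repr (X (b i)) j • Q (b j) := by
    conv_lhs => rw [← b.sum_repr (X (b i))]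
    rw [map_sum]
    exact Finset.sum_congr rfl fun j _ => map_smul _ _ _
  by_cases hi : i ∈ s
  · rw [hQ1 i hi, h1]
    conv_lhs => rw [← b.sum_repr (X (b i))]
    refine Finset.sum_congr rfl fun j _ => ?_
    by_cases hj : b.repr (X (b i)) j = 0
    · rw [hj, zero_smul, zero_smul]
    · rw [hQ1 j ((hs i j (coord_mem TL b hb hX hj)).1 hi)]
  · rw [hQ0 i hi, map_zero, h1]
    symm
    refine Finset.sum_eq_zero fun j _ => ?_
    by_cases hj : b.repr (X (b i)) j = 0
    · rw [hj, zero_smul]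
    · rw [hQ0 j (fun h => hi ((hs i j (coord_mem TL b hb hX hj)).2 h)), smul_zero]

end Pool.Agent.R931.ZG
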