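import Mathlib
import Pool.Agent.R931.PD.Defs

/-!
# The lattice condition: definitions
-/

set_option autoImplicit false

namespace Pool.Agent.R931.ZG

open Pool.Agent.R931.PD

/-- The lattice which is generated by the relations `R` and by the vectors `e_i - e_{a(i)}`, for the elements
`a` of the permutation group `N`. -/
def latticeOf {n : ℕ} (R : Set (Fin n → ℤ)) (N : Subgroup (Equiv.Perm (Fin n))) :
    AddSubgroup (Fin n → ℤ) :=
  AddSubgroup.closure (R ∪ {v | ∃ a ∈ N, ∃ i, v = Pi.single i 1 - Pi.single (a i) 1})

/-- The lattice of `N` contains `e_i - e_{b(i)}` for all the elements `b` of all the permutation groups which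
contain `N` and have at least `m` orbits. (For instance `N` has at most `m` orbits, or the lattice contains
all the vectors `e_i - e_j`.) -/
def LatticeFull {n : ℕ} (R : Set (Fin n → ℤ)) (m : ℕ) (N : Subgroup (Equiv.Perm (Fin n))) : Prop :=
  ∀ B : Subgroup (Equiv.Perm (Fin n)), N ≤ B → m ≤ orbitCount B → ∀ b ∈ B, ∀ i,
    Pi.single i 1 - Pi.single (b i) 1 ∈ latticeOf R N

end Pool.Agent.R931.ZG
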