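import Mathlib
import Pool.Agent.R931.ZG.Local
import Pool.Agent.R931.ZF.Pol

/-!
# The zero-one law for the Mumford-Tate conjecture: the lattice condition
-/

set_option autoImplicit false
set_option linter.unusedSectionVars false
set_option linter.unusedVariables false

namespace Pool.Agent.R931.ZG

open Function Polynomial Module NumberField IsDedekindDomain TensorProduct Pool.Agent.TH118.SG
  Pool.Agent.Y114.RM Pool.Agent.Y114.MU Pool.Agent.Y114.TF Pool.Agent.Y114.GF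
  Pool.Agent.H204R3.GP Pool.Agent.R931.GD Pool.Agent.Y142.ZO Pool.Agent.Y142.ZI
  Pool.Agent.Y142.SS Pool.Agent.R931.BD Pool.Agent.R931.ZL Pool.Agent.R931.ZM
  Pool.Agent.R931.PD Pool.Agent.R931.ZF
open Pool.Agent.Y142.ZD (DistPow dist_of_nice)
open Pool.Agent.Y142.ZS (NiceP nice_of_p)
open Pool.Agent.Y936.SS (Om)

/-- the condition on the orbits implies the lattice condition -/
theorem latticeFull_of_orbits {n : ℕ} (R : Set (Fin n → ℤ)) {m : ℕ}
    {N : Subgroup (Equiv.Perm (Fin n))} (h : orbitCount N ≤ m) : LatticeFull R m N := by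
  classical
  intro B hNB hB b hb i
  -- the map from the orbits of `N` to the orbits of `B` is surjective, so it is bijective
  let QN : Type := MulAction.orbitRel.Quotient N (Fin n)
  let QB : Type := MulAction.orbitRel.Quotient B (Fin n)
  have hfN : Finite QN := Quotient.finite _
  have hfB : Finite QB := Quotient.finite _
  let F : QN → QB := Quotient.map' id fun x y hxy => by
    rw [MulAction.orbitRel_apply] at hxy ⊢
    obtain ⟨a, ha⟩ := hxy
    exact ⟨⟨a.1, hNB a.2⟩, ha⟩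
  have hsurj : Surjective F := by
    intro q
    obtain ⟨x, rfl⟩ := Quotient.exists_rep q
    exact ⟨Quotient.mk'' x, rfl⟩
  have hcard : Nat.card QN ≤ Nat.card QB := h.trans hB
  have hbij : Injective F := by
    have h1 : Nat.card QN = Nat.card QB := le_antisymm hcard (Nat.card_le_card_of_surjective F hsurj)
    let _ : Fintype QN := Fintype.ofFinite QN
    let _ : Fintype QB := Fintype.ofFinite QB
    rw [Nat.card_eq_fintype_card, Nat.card_eq_fintype_card] at h1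
    exact ((Fintype.bijective_iff_surjective_and_card F).2 ⟨hsurj, h1⟩).1
  have h2 : F (Quotient.mk'' (b i)) = F (Quotient.mk'' i) := by
    apply Quotient.sound'
    rw [MulAction.orbitRel_apply]
    exact ⟨⟨b, hb⟩, rfl⟩
  have h3 := hbij h2
  rw [Quotient.eq'', MulAction.orbitRel_apply] at h3
  obtain ⟨a, ha⟩ := h3
  have h4 : (a : Equiv.Perm (Fin n)) i = b i := ha
  refine AddSubgroup.subset_closure (Or.inr ⟨a, a.2, i, ?_⟩)
  rw [h4]

/-- the lattice condition holds if the lattice contains all differences -/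
theorem latticeFull_of_all {n : ℕ} {R : Set (Fin n → ℤ)} {m : ℕ}
    {N : Subgroup (Equiv.Perm (Fin n))}
    (h : ∀ i j, Pi.single i 1 - Pi.single j 1 ∈ latticeOf R N) : LatticeFull R m N :=
  fun B _ _ b _ i => h i (b i)

section

variable {K : Type} [Field K] [NumberField K] {Γ : Type} [Group Γ] [TopologicalSpace Γ]
  [IsTopologicalGroup Γ] [CompactSpace Γ] {s : Gal(AlgebraicClosure K/K) →* Γ} {N : ℕ} {wt : ℤ}
  {c r : ℕ} {S : Set (HeightOneSpectrum (𝓞 K))} {P : HeightOneSpectrum (𝓞 K) → ℚ[X]}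
  {ρ : ∀ (ℓ : ℕ) [Fact ℓ.Prime], Rep1 Γ N ℓ}

/-- the condition on a group of permutations: at most `m` orbits, or self-dual orbits and the lattice
condition (for polarized representations) -/
def Good (pol : Prop) (R : Set (Fin N → ℤ)) (m : ℕ) (H : Subgroup (Equiv.Perm (Fin N))) : Prop :=
  orbitCount H ≤ m ∨ (pol ∧ SelfDualOrbits R H ∧ LatticeFull R m H)

/-- semisimplicity and the Tate tensors, from the labels -/
theorem full_of_good {𝔤 : ∀ (ℓ : ℕ) [Fact ℓ.Prime], End1 N ℓ}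
    (h' : Setup K Γ s N wt c r S P ρ 𝔤) {ℓ : ℕ} [Fact ℓ.Prime] {R : Set (Fin N → ℤ)} {m : ℕ}
    (hend : m ≤ commutantDim (𝔤 ℓ)) {γ : Γ} {z : Fin N → Om ℓ}
    {e : Basis (Fin N) (Om ℓ) (Fin N → Om ℓ)} {f : ℚ_[ℓ][X]} (hd : OmDat ρ s S P r ℓ R γ z e f)
    {H : Subgroup (Equiv.Perm (Fin N))} (hlab : LabelsO ρ ℓ e H)
    (hH : Good (Polarized (ρ ℓ)) R m H) : Semisimple (ρ ℓ) ∧ TateTensorsOf (ρ ℓ) (𝔤 ℓ) := by
  have h := setup_of_motivic h'
  have hss : Semisimple (ρ ℓ) := by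
    rcases hH with hH | ⟨hpol, hdu, -⟩
    · obtain ⟨Δ₀, hΔ₀, hdim⟩ := exists_comS (h'.motivic ℓ) hend
      exact semi_of_labels hd hlab hΔ₀ (((hH.trans hdim).trans (comS_leM Δ₀)).trans (comM_le Δ₀))
    · exact semi_pol h hd hlab hdu hpol
  have hlat : LatticeFull R m H := by
    rcases hH with hH | ⟨-, -, hH⟩
    · exact latticeFull_of_orbits R hH
    · exact hH
  exact ⟨hss, full_of_lattice h.pos (h'.motivic ℓ) (h'.rank ℓ) (h'.cont ℓ) hss hd hlab hlat hend⟩

/-- the zero-one law -/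
theorem main_lattice {𝔤 : ∀ (ℓ : ℕ) [Fact ℓ.Prime], End1 N ℓ} (h' : Setup K Γ s N wt c r S P ρ 𝔤)
    (hpol : ∀ (ℓ : ℕ) [Fact ℓ.Prime], Polarized (ρ ℓ)) (R : Set (Fin N → ℤ)) (hRr : RankGE r R)
    {J : Type} (T : J → Set (Equiv.Perm (Fin N))) (hne : ∃ j, (T j).Nonempty)
    (p : J → ℕ) [∀ j, Fact (p j).Prime] (τ : ∀ j, Gal(PadicAlgCl (p j)/ℚ_[p j]))
    (hτ : ∀ j, ∀ a ∈ T j, TypeOccurs s (ρ (p j)) R (τ j) a)
    (m : ℕ) (hm : Forces (relAut R) T fun H => SelfDualOrbits R H ∧ LatticeFull R m H)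
    (hend : ∀ (ℓ : ℕ) [Fact ℓ.Prime], m ≤ commutantDim (𝔤 ℓ)) :
    HasDensityZero {ℓ | ∃ _ : Fact ℓ.Prime, ¬ (Semisimple (ρ ℓ) ∧ TateTensorsOf (ρ ℓ) (𝔤 ℓ))} := by
  classical
  have h := setup_of_motivic h'
  refine main_F h R hRr T hne p τ hτ
    (fun ℓ _ => Semisimple (ρ ℓ) ∧ TateTensorsOf (ρ ℓ) (𝔤 ℓ)) ∅ Set.finite_empty ?_
  intro G M hGA hMG hnorm hmeet hgood ℓ hℓp hℓ γ z e f H g y hd hg hHA hyA hyn hmc hlab
  exact full_of_good h' (hend ℓ) hd hlab
    (Or.inr ⟨hpol ℓ, hm G M H g y hGA hMG hnorm hmeet hg hHA hyA hyn hmc⟩)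

end

end Pool.Agent.R931.ZG
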