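import Mathlib
import Pool.Agent.R931.ZG.Main

/-!
# The Mumford-Tate conjecture at a given prime, from the types at this prime
-/

set_option autoImplicit false
set_option linter.unusedSectionVars false
set_option linter.unusedVariables false

namespace Pool.Agent.R931.ZG

open Function Polynomial Module NumberField IsDedekindDomain TensorProduct Pool.Agent.TH118.SG
  Pool.Agent.Y114.RM Pool.Agent.Y114.MU Pool.Agent.Y114.TF Pool.Agent.Y114.GF
  Pool.Agent.H204R3.GP Pool.Agent.R931.GD Pool.Agent.Y142.ZO Pool.Agent.Y142.ZI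
  Pool.Agent.Y142.SS Pool.Agent.R931.BD Pool.Agent.R931.ZL Pool.Agent.R931.ZM
  Pool.Agent.R931.PD Pool.Agent.R931.ZF
open Pool.Agent.Y142.ZD (DistPow dist_of_nice)
open Pool.Agent.Y142.ZS (NiceP nice_of_p)
open Pool.Agent.Y936.SS (Om)

section

variable {K : Type} [Field K] [NumberField K] {Γ : Type} [Group Γ] [TopologicalSpace Γ]
  [IsTopologicalGroup Γ] [CompactSpace Γ] {s : Gal(AlgebraicClosure K/K) →* Γ} {N : ℕ} {wt : ℤ}
  {c r : ℕ} {S : Set (HeightOneSpectrum (𝓞 K))} {P : HeightOneSpectrum (𝓞 K) → ℚ[X]}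
  {ρ : ∀ (ℓ : ℕ) [Fact ℓ.Prime], Rep1 Γ N ℓ}

theorem loc_of_occurs (h : SetupG K Γ s N wt c r S P ρ) (R : Set (Fin N → ℤ)) (hR : RankGE r R)
    (ℓ : ℕ) [Fact ℓ.Prime] (τ : Om ℓ ≃ₐ[ℚ_[ℓ]] Om ℓ) (a : Equiv.Perm (Fin N))
    (ha : TypeOccurs s (ρ ℓ) R τ a) : LocTypT S P r ℓ R τ a ∧ a ∈ relAut R := by
  have key : ∀ v, GoodPl S P r v → ¬ Above v ℓ → ∀ z' : Fin N → Om ℓ, Injective z' →
      (∀ a, aeval (z' a) ((P v).map (algebraMap ℚ ℚ_[ℓ])) = 0) → relations z' = R →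
      (∀ i, τ (z' i) = z' (a i)) → LocTypT S P r ℓ R τ a ∧ a ∈ relAut R := by
    intro v hv hvℓ z' hinj' hz' hzR' hτ'
    refine ⟨⟨v, hv, hvℓ, z', hinj', hz', hzR', hτ'⟩, mem_autR_of hzR' ?_⟩
    have h2 : (fun i => z' (a i)) = fun i => τ (z' i) := funext fun i => (hτ' i).symm
    rw [h2]
    exact (mrel_map (τ : Om ℓ ≃ₐ[ℚ_[ℓ]] Om ℓ).toRingEquiv.toRingHom z').trans hzR'
  rcases ha with ⟨σ, z, hz', hpow, hzR, hτ⟩ | ⟨X, hX, y, hyinj, hy, hyR, hτ⟩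
  · have hinj : Injective z := fun i j hij => hpow i j 1 one_pos (by rw [hij])
    have hchar : (matRep (ρ ℓ) (s σ)).charpoly = ((ρ ℓ) () (s σ)).charpoly := by
      rw [matRep_apply, ← Matrix.charpoly_toLin', Matrix.toLin'_toMatrix']
    have hz : ∀ i, aeval (z i) (matRep (ρ ℓ) (s σ)).charpoly = 0 := by
      intro i
      rw [hchar]
      exact hz' i
    obtain ⟨hsep, hall⟩ := sep_of_roots (Matrix.charpoly_monic _) (by
      rw [Matrix.charpoly_natDegree_eq_dim, Fintype.card_fin]) hinj hz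
    have hdist : DistPow ℓ (matRep (ρ ℓ) (s σ)).charpoly := by
      intro n x y hn hx hy hxy
      obtain ⟨i, rfl⟩ := hall x hx
      obtain ⟨j, rfl⟩ := hall y hy
      rw [hpow i j n hn hxy]
    obtain ⟨v, hv, hvℓ, h1⟩ := ZM.realize h Unit (fun _ => ℓ) (fun _ _ _ => rfl) (fun _ => σ)
      (fun _ => hsep) (fun _ => hdist) (fun _ => z) (fun _ => hinj) (fun _ => hz)
      (fun _ => by rw [hzR]; exact rankR_of hR)
    obtain ⟨z', hinj', hz', hzR', hτ'⟩ := h1 ()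
    exact key v hv (hvℓ ()) z' hinj' hz' (by rw [hzR', hzR]) fun i => hτ' τ i (a i) (hτ i)
  · have hsep := (sep_of_roots (Matrix.charpoly_monic X) (by
      rw [Matrix.charpoly_natDegree_eq_dim, Fintype.card_fin]) hyinj hy).1
    have hyR' : lrel y = R := hyR
    have hX' : IsTangent ℓ ((matRep (ρ ℓ)).comp s) X := hX
    obtain ⟨v, hv, hvℓ, z', hinj', hz', hzR', hτ'⟩ := realizeT h ℓ hX' hsep hyinj hy
      (by rw [hyR']; exact rankR_of hR)
    exact key v hv hvℓ z' hinj' hz' (by rw [hzR', hyR']) fun i => hτ' τ i (a i) (hτ i)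

/-- the Mumford-Tate conjecture at a given prime, from the types at this prime -/
theorem main_at {𝔤 : ∀ (ℓ : ℕ) [Fact ℓ.Prime], End1 N ℓ} (h' : Setup K Γ s N wt c r S P ρ 𝔤)
    (R : Set (Fin N → ℤ)) (hRr : RankGE r R) (ℓ : ℕ) [Fact ℓ.Prime]
    (T : Set (Equiv.Perm (Fin N))) (hne : T.Nonempty) (τ : Gal(PadicAlgCl ℓ/ℚ_[ℓ]))
    (hτ : ∀ a ∈ T, TypeOccurs s (ρ ℓ) R τ a) (m : ℕ)
    (hm : ∀ H : Subgroup (Equiv.Perm (Fin N)), ∀ y ∈ relAut R, H ≤ relAut R →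
      (∀ u ∈ H, y * u * y⁻¹ ∈ H) → MeetsCoset (relAut R) H y T → Good (Polarized (ρ ℓ)) R m H)
    (hend : m ≤ commutantDim (𝔤 ℓ)) : Semisimple (ρ ℓ) ∧ TateTensorsOf (ρ ℓ) (𝔤 ℓ) := by
  have h := setup_of_motivic h'
  have hloc := fun a ha => loc_of_occurs h R hRr ℓ τ a (hτ a ha)
  obtain ⟨γ, z, e, f, H, y, hd, hHA, hyA, hyn, hmc, hlab⟩ := label_coset h τ hne
    (fun a ha => (hloc a ha).2) fun a ha => (hloc a ha).1
  exact full_of_good h' hend hd hlab (hm H y hyA hHA hyn hmc)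

end

end Pool.Agent.R931.ZG
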