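import Mathlib
import Pool.Agent.R931.ZG.One
import Pool.Agent.R931.ZF.Coef

/-!
# Semisimplicity, irreducibility and the Tate tensors at a given prime, from the types at this prime
-/

set_option autoImplicit false
set_option linter.unusedSectionVars false
set_option linter.unusedVariables false

namespace Pool.Agent.R931.ZG

open Function Polynomial Module NumberField IsDedekindDomain TensorProduct Pool.Agent.TH118.SG
  Pool.Agent.Y114.RM Pool.Agent.Y114.MU Pool.Agent.Y114.TF Pool.Agent.Y114.GF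
  Pool.Agent.H204R3.GP Pool.Agent.R931.GD Pool.Agent.Y142.ZO Pool.Agent.Y142.ZI
  Pool.Agent.Y142.SS Pool.Agent.R931.BD Pool.Agent.R931.ZL Pool.Agent.R931.ZM
  Pool.Agent.R931.PD Pool.Agent.R931.ZF
open Pool.Agent.Y142.ZD (DistPow dist_of_nice)
open Pool.Agent.Y142.ZS (NiceP nice_of_p)
open Pool.Agent.Y936.SS (Om)

/-- The condition `cond` is satisfied by every subgroup `H` of `A` for which there is an element `y` of `A` which
normalizes `H` such that every element of `T` is conjugate in `A` to an element of the coset `H * y`. -/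
def ForcesAt {n : ℕ} (A : Subgroup (Equiv.Perm (Fin n))) (T : Set (Equiv.Perm (Fin n)))
    (cond : Subgroup (Equiv.Perm (Fin n)) → Prop) : Prop :=
  ∀ H : Subgroup (Equiv.Perm (Fin n)), ∀ y ∈ A, H ≤ A → (∀ u ∈ H, y * u * y⁻¹ ∈ H) →
    MeetsCoset A H y T → cond H

section

variable {K : Type} [Field K] [NumberField K] {Γ : Type} [Group Γ] [TopologicalSpace Γ]
  [IsTopologicalGroup Γ] [CompactSpace Γ] {s : Gal(AlgebraicClosure K/K) →* Γ} {N : ℕ} {wt : ℤ}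
  {c r : ℕ} {S : Set (HeightOneSpectrum (𝓞 K))} {P : HeightOneSpectrum (𝓞 K) → ℚ[X]}
  {ρ : ∀ (ℓ : ℕ) [Fact ℓ.Prime], Rep1 Γ N ℓ}

/-- the labels at a given prime -/
theorem labels_at (h : SetupG K Γ s N wt c r S P ρ) (R : Set (Fin N → ℤ)) (hRr : RankGE r R)
    (ℓ : ℕ) [Fact ℓ.Prime] (T : Set (Equiv.Perm (Fin N))) (hne : T.Nonempty)
    (τ : Gal(PadicAlgCl ℓ/ℚ_[ℓ])) (hτ : ∀ a ∈ T, TypeOccurs s (ρ ℓ) R τ a) :
    ∃ (γ : Γ) (z : Fin N → Om ℓ) (e : Basis (Fin N) (Om ℓ) (Fin N → Om ℓ)) (f : ℚ_[ℓ][X])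
      (H : Subgroup (Equiv.Perm (Fin N))) (_ : OmDat ρ s S P r ℓ R γ z e f)
      (_ : LabelsO ρ ℓ e H), ∀ cond, ForcesAt (relAut R) T cond → cond H := by
  have hloc := fun a ha => loc_of_occurs h R hRr ℓ τ a (hτ a ha)
  obtain ⟨γ, z, e, f, H, y, hd, hHA, hyA, hyn, hmc, hlab⟩ := label_coset h τ hne
    (fun a ha => (hloc a ha).2) fun a ha => (hloc a ha).1
  exact ⟨γ, z, e, f, H, hd, hlab, fun cond hcond => hcond H y hyA hHA hyn hmc⟩

/-- semisimplicity at a given prime, a bound for the endomorphisms, and the Mumford-Tate conjecture at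
this prime -/
theorem semi_at (h : SetupG K Γ s N wt c r S P ρ) (R : Set (Fin N → ℤ)) (hRr : RankGE r R)
    (ℓ : ℕ) [Fact ℓ.Prime] (T : Set (Equiv.Perm (Fin N))) (hne : T.Nonempty)
    (τ : Gal(PadicAlgCl ℓ/ℚ_[ℓ])) (hτ : ∀ a ∈ T, TypeOccurs s (ρ ℓ) R τ a) (m : ℕ)
    (hend : ∃ Δ : Subgroup Γ, Δ.FiniteIndex ∧ m ≤ centralizerDim (ρ ℓ () '' (Δ : Set Γ)))
    (hm : ForcesAt (relAut R) T fun H =>
      orbitCount H ≤ m ∨ (Polarized (ρ ℓ) ∧ SelfDualOrbits R H)) :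
    Semisimple (ρ ℓ) ∧
      (∀ m' : ℕ, (ForcesAt (relAut R) T fun H => orbitCount H ≤ m') →
        ∀ Δ : Subgroup Γ, Δ.FiniteIndex → centralizerDim (ρ ℓ () '' (Δ : Set Γ)) ≤ m') ∧
      ∀ (𝔤 : End1 N ℓ) (m' : ℕ), Motivic (ρ ℓ) 𝔤 → RankLE 𝔤 r → m' ≤ commutantDim 𝔤 →
        ForcesAt (relAut R) T (LatticeFull R m') → TateTensorsOf (ρ ℓ) 𝔤 := by
  obtain ⟨γ, z, e, f, H, hd, hlab, hc⟩ := labels_at h R hRr ℓ T hne τ hτ
  have hss : Semisimple (ρ ℓ) := by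
    rcases hc _ hm with hH | ⟨hpol, hdu⟩
    · obtain ⟨Δ₀, hΔ₀, hdim⟩ := hend
      rw [centralizerDim_eq] at hdim
      exact semi_of_labels hd hlab hΔ₀ ((((hH.trans hdim).trans (com_leS Δ₀)).trans
        (comS_leM Δ₀)).trans (comM_le Δ₀))
    · exact semi_pol h hd hlab hdu hpol
  refine ⟨hss, fun m' hm' Δ hΔ => ?_, fun 𝔤 m' hmot hrk hm' hlat =>
    full_of_lattice h.pos hmot hrk (h.cont ℓ) hss hd hlab (hc _ hlat) hm'⟩
  rw [centralizerDim_eq]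
  exact ((com_leS Δ).trans (comS_leO hd hlab hΔ)).trans (hc _ hm')

/-- irreducibility at a given prime -/
theorem irr_at {E : Type} [Field E] [NumberField E] (h : SetupG K Γ s N wt c r S P ρ)
    (R : Set (Fin N → ℤ)) (hRr : RankGE r R)
    (ℓ : ℕ) [Fact ℓ.Prime] (T : Set (Equiv.Perm (Fin N))) (hne : T.Nonempty)
    (τ : Gal(PadicAlgCl ℓ/ℚ_[ℓ])) (hτ : ∀ a ∈ T, TypeOccurs s (ρ ℓ) R τ a)
    (n : ℕ) (hn : 0 < n) (ε : E →+* End ℚ_[ℓ] (Fin N → ℚ_[ℓ])) (hε : ActsFreely n (ρ ℓ) ε)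
    (hm : ForcesAt (relAut R) T fun H => orbitCount H ≤ finrank ℚ E) :
    (∀ φ : E →+* PadicAlgCl ℓ, StronglyIrreducible (ρ ℓ) (partAt ε φ)) ∧
      ∀ Δ : Subgroup Γ, Δ.FiniteIndex →
        centralizerDim (ρ ℓ () '' (Δ : Set Γ)) ≤ finrank ℚ E := by
  obtain ⟨γ, z, e, f, H, hd, hlab, hc⟩ := labels_at h R hRr ℓ T hne τ hτ
  have hH : orbitCount H ≤ finrank ℚ E := hc _ hm
  refine ⟨fun φ => irr_of_labels hd hlab hn hε hH φ, fun Δ hΔ => ?_⟩
  rw [centralizerDim_eq]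
  exact ((com_leS Δ).trans (comS_leO hd hlab hΔ)).trans hH

end

end Pool.Agent.R931.ZG
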