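import Mathlib
import Pool.Agent.R931.ZG.Main
import Pool.Agent.R931.ZF.Examples

/-!
# Sufficient conditions for the lattice condition
-/

set_option autoImplicit false
set_option linter.unusedSectionVars false

namespace Pool.Agent.R931.ZG

open Function Pool.Agent.R931.PD Pool.Agent.R931.ZL Pool.Agent.R931.ZF

variable {n : ℕ} {J : Type} {R : Set (Fin n → ℤ)}

theorem latticeOf_mono {N N' : Subgroup (Equiv.Perm (Fin n))} (h : N ≤ N') :
    latticeOf R N ≤ latticeOf R N' := by
  refine AddSubgroup.closure_mono (Set.union_subset_union_right _ ?_)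
  rintro v ⟨a, ha, i, rfl⟩
  exact ⟨a, h ha, i, rfl⟩

theorem latticeFull_mono {m : ℕ} {N N' : Subgroup (Equiv.Perm (Fin n))} (h : N ≤ N')
    (hN : LatticeFull R m N) : LatticeFull R m N' :=
  fun B hB hm b hb i => latticeOf_mono h (hN B (h.trans hB) hm b hb i)

theorem selfDual_mono {N N' : Subgroup (Equiv.Perm (Fin n))} (h : N ≤ N')
    (hN : SelfDualOrbits R N) : SelfDualOrbits R N' := by
  intro c hc hdu i
  obtain ⟨a, ha, hai⟩ := hN c hc hdu i
  exact ⟨a, h ha, hai⟩

/-- Let `A = W * Z` where `Z` is central in `A`, and suppose that for one `j₀` the types in `T j₀` contain `1`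
and a set which generates `W` invariably.  Then it is sufficient that `W` satisfies the conditions. -/
theorem forces_lattice {W Z : Subgroup (Equiv.Perm (Fin n))} (hW : W ≤ relAut R)
    (hZ : Z ≤ relAut R) (hcen : ∀ z ∈ Z, ∀ a ∈ relAut R, a * z = z * a)
    (hA : ∀ a ∈ relAut R, ∃ w ∈ W, ∃ z ∈ Z, a = w * z)
    {T : J → Set (Equiv.Perm (Fin n))} {j₀ : J} {T₀ : Set (Equiv.Perm (Fin n))} (h1 : 1 ∈ T j₀)
    (hT₀ : T₀ ⊆ T j₀) (hT₀W : T₀ ⊆ W) (hgen : GeneratesInvariably W T₀) {m : ℕ}
    (hdu : SelfDualOrbits R W) (hlat : LatticeFull R m W) :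
    Forces (relAut R) T fun N => SelfDualOrbits R N ∧ LatticeFull R m N :=
  forces_of_central hW hZ hcen hA h1 hT₀ hT₀W hgen fun _ h =>
    ⟨selfDual_mono h hdu, latticeFull_mono h hlat⟩

/-- The lattice condition in the presence of the weight zero, for example for the representation of dimension
`7` of `G_2`: there is one weight which is zero, the group `N` is transitive on the other weights, and there are
three weights with sum zero and two weights with sum zero. -/
theorem latticeFull_of_zero {N : Subgroup (Equiv.Perm (Fin n))} (m : ℕ) (i₀ : Fin n)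
    (h0 : Pi.single i₀ 1 ∈ R) (htr : ∀ i j, i ≠ i₀ → j ≠ i₀ → ∃ a ∈ N, a i = j)
    (h2 : ∃ i j, i ≠ i₀ ∧ j ≠ i₀ ∧ Pi.single i 1 + Pi.single j 1 ∈ R)
    (h3 : ∃ i j l, i ≠ i₀ ∧ j ≠ i₀ ∧ l ≠ i₀ ∧
      Pi.single i 1 + Pi.single j 1 + Pi.single l 1 ∈ R) : LatticeFull R m N := by
  have hR : ∀ v ∈ R, v ∈ latticeOf R N := fun v hv => AddSubgroup.subset_closure (Or.inl hv)
  have hN : ∀ i j, i ≠ i₀ → j ≠ i₀ → Pi.single i 1 - Pi.single j 1 ∈ latticeOf R N := by
    intro i j hi hj
    obtain ⟨a, ha, rfl⟩ := htr i j hi hj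
    exact AddSubgroup.subset_closure (Or.inr ⟨a, ha, i, rfl⟩)
  have key : ∀ i, i ≠ i₀ → Pi.single i 1 ∈ latticeOf R N := by
    intro i hi
    obtain ⟨a, b, ha, hb, hab⟩ := h2
    obtain ⟨c, d, e, hc, hd, he, hcde⟩ := h3
    have e1 := (latticeOf R N).add_mem (hR _ hab)
      ((latticeOf R N).add_mem (hN i a hi ha) (hN i b hi hb))
    have e2 := (latticeOf R N).add_mem (hR _ hcde) ((latticeOf R N).add_mem (hN i c hi hc)
      ((latticeOf R N).add_mem (hN i d hi hd) (hN i e hi he)))
    have e3 := (latticeOf R N).sub_mem e2 e1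
    convert e3 using 1
    abel
  refine latticeFull_of_all fun i j => ?_
  have h4 : ∀ i, Pi.single i 1 ∈ latticeOf R N := by
    intro i
    by_cases hi : i = i₀
    · rw [hi]
      exact hR _ h0
    · exact key i hi
  exact (latticeOf R N).sub_mem (h4 i) (h4 j)

end Pool.Agent.R931.ZG
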