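import Mathlib
import Pool.Agent.R931.ZG.At
import Pool.Agent.R931.ZG.Examples

/-!
# Sufficient conditions for the combinatorial hypotheses at one prime
-/

set_option autoImplicit false
set_option linter.unusedSectionVars false

namespace Pool.Agent.R931.ZG

open Function Pool.Agent.R931.PD Pool.Agent.R931.ZL Pool.Agent.R931.ZF

variable {n : ℕ}

/-- Let `A = W * Z` where `Z` is central in `A`, and suppose that the types in `T` contain `1` and a set which
generates `W` invariably.  Then every condition which is satisfied by all groups containing `W` is forced. -/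
theorem forcesAt_of_central {A W Z : Subgroup (Equiv.Perm (Fin n))} (hW : W ≤ A)
    (hcen : ∀ z ∈ Z, ∀ a ∈ A, a * z = z * a) (hA : ∀ a ∈ A, ∃ w ∈ W, ∃ z ∈ Z, a = w * z)
    {T T₀ : Set (Equiv.Perm (Fin n))} (h1 : 1 ∈ T)
    (hT₀ : T₀ ⊆ T) (hT₀W : T₀ ⊆ W) (hgen : GeneratesInvariably W T₀)
    {C : Subgroup (Equiv.Perm (Fin n)) → Prop} (hC : ∀ N, W ≤ N → C N) : ForcesAt A T C := by
  have hconj : ∀ w ∈ W, ∀ x ∈ A, ∃ u ∈ W, x⁻¹ * w * x = u⁻¹ * w * u := by
    intro w _ x hx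
    obtain ⟨u, hu, z, hz, rfl⟩ := hA x hx
    refine ⟨u, hu, ?_⟩
    have h2 := hcen z hz (u⁻¹ * w * u) (A.mul_mem (A.mul_mem (A.inv_mem (hW hu)) (hW ‹_›)) (hW hu))
    have h3 : (u * z)⁻¹ * w * (u * z) = z⁻¹ * (u⁻¹ * w * u * z) := by group
    rw [h3, h2]
    group
  intro H y _ _ _ hm
  have hy : y⁻¹ ∈ H := by
    obtain ⟨x, -, hx⟩ := hm 1 h1
    rwa [mul_one, inv_mul_cancel, one_mul] at hx
  refine hC H ?_
  have h2 := hgen (W ⊓ H) inf_le_left fun a ha => by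
    obtain ⟨u, hu, h3⟩ := hm a (hT₀ ha)
    obtain ⟨u', hu', h4⟩ := hconj a (hT₀W ha) u hu
    refine ⟨u', hu', W.mul_mem (W.mul_mem (W.inv_mem hu') (hT₀W ha)) hu', ?_⟩
    rw [← h4]
    have h5 := H.mul_mem h3 (H.inv_mem hy)
    rwa [inv_inv, inv_mul_cancel_right] at h5
  rw [← h2]
  exact inf_le_right

/-- In the situation of `forcesAt_of_central`, the number of orbits is bounded by the number of the orbits
of `W`. -/
theorem orbitsAt_of_central {A W Z : Subgroup (Equiv.Perm (Fin n))} (hW : W ≤ A)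
    (hcen : ∀ z ∈ Z, ∀ a ∈ A, a * z = z * a) (hA : ∀ a ∈ A, ∃ w ∈ W, ∃ z ∈ Z, a = w * z)
    {T T₀ : Set (Equiv.Perm (Fin n))} (h1 : 1 ∈ T)
    (hT₀ : T₀ ⊆ T) (hT₀W : T₀ ⊆ W) (hgen : GeneratesInvariably W T₀) :
    ForcesAt A T fun H => orbitCount H ≤ orbitCount W :=
  forcesAt_of_central hW hcen hA h1 hT₀ hT₀W hgen fun _ h => orbitCount_mono h

/-- In the situation of `forcesAt_of_central`, it is sufficient that the orbits of `W` are self-dual and that `W`
satisfies the lattice condition. -/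
theorem latticeAt_of_central {R : Set (Fin n → ℤ)} {W Z : Subgroup (Equiv.Perm (Fin n))}
    (hW : W ≤ relAut R) (hcen : ∀ z ∈ Z, ∀ a ∈ relAut R, a * z = z * a)
    (hA : ∀ a ∈ relAut R, ∃ w ∈ W, ∃ z ∈ Z, a = w * z)
    {T T₀ : Set (Equiv.Perm (Fin n))} (h1 : 1 ∈ T)
    (hT₀ : T₀ ⊆ T) (hT₀W : T₀ ⊆ W) (hgen : GeneratesInvariably W T₀) {m : ℕ}
    (hdu : SelfDualOrbits R W) (hlat : LatticeFull R m W) :
    ForcesAt (relAut R) T (fun H => SelfDualOrbits R H ∧ LatticeFull R m H) :=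
  forcesAt_of_central hW hcen hA h1 hT₀ hT₀W hgen fun _ h =>
    ⟨selfDual_mono h hdu, latticeFull_mono h hlat⟩

end Pool.Agent.R931.ZG
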