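import Mathlib
import Pool.Agent.R931.ZG.Cls
import Pool.Agent.Y114.RM.Final

/-!
# Subalgebras which contain a maximal torus: the sum of the roots
-/

set_option autoImplicit false

namespace Pool.Agent.R931.ZG

open Module Polynomial Pool.Agent.Y114.RM Pool.Agent.Y212.RM Pool.Agent.R931.BD
  Pool.Agent.R931.ZF

variable {V : Type} [AddCommGroup V] [Module ℂ V] [FiniteDimensional ℂ V]
  {G L t : Submodule ℂ (End ℂ V)}

/-- `SYM`, with a condition only for the coroots of `L` -/
theorem nonDeg_of_trace (T : Tor G t) (hLG : L ≤ G) (hL : IsLie L) (ht : t ≤ L)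
    (htrace : ∀ (χ : t → ℂ), ∀ e ∈ L, ∀ f ∈ G, ∀ (h : End ℂ V) (hh : h ∈ t), e ≠ 0 → h ≠ 0 →
      (∀ a : t, (a : End ℂ V) * e - e * a = χ a • e) → e * f - f * e = h →
      h * e - e * h = 2 • e → h * f - f * h = -(2 • f) →
      LinearMap.trace ℂ L ((adE h).restrict (hL.adE_mem (ht hh))) = 0) : NonDeg L := by
  -- the radical of the trace form on `L`
  let R : Submodule ℂ (End ℂ V) :=
    { carrier := {X | X ∈ L ∧ ∀ Y ∈ L, LinearMap.trace ℂ V (X * Y) = 0}
      add_mem' := by
        rintro a b ⟨ha, ha'⟩ ⟨hb, hb'⟩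
        refine ⟨L.add_mem ha hb, fun Y hY => ?_⟩
        rw [add_mul, LinearMap.map_add, ha' Y hY, hb' Y hY, add_zero]
      zero_mem' := ⟨L.zero_mem, fun Y _ => by rw [zero_mul, LinearMap.map_zero]⟩
      smul_mem' := by
        rintro c a ⟨ha, ha'⟩
        refine ⟨L.smul_mem c ha, fun Y hY => ?_⟩
        rw [smul_mul_assoc, LinearMap.map_smul, ha' Y hY, smul_zero] }
  have hR : ∀ a ∈ t, ∀ X ∈ R, a * X - X * a ∈ R := by
    rintro a ha X ⟨hX, hX'⟩
    refine ⟨hL a (ht ha) X hX, fun Y hY => ?_⟩
    have h1 : (a * X - X * a) * Y = (a * (X * Y) - (X * Y) * a) - X * (a * Y - Y * a) := by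
      noncomm_ring
    rw [h1, LinearMap.map_sub, trace_lie_zero, hX' _ (hL a (ht ha) Y hY), sub_zero]
  have key : ∀ X ∈ R, X = 0 := by
    refine wt_induction t T.diag T.comm R hR (P := fun X => X = 0) rfl ?_ ?_
    · intro X Y _ _ hX hY
      have hX' : X = 0 := hX
      have hY' : Y = 0 := hY
      show X + Y = 0
      rw [hX', hY', add_zero]
    · rintro χ e ⟨heL, heR⟩ hwt
      show e = 0
      by_contra he0
      by_cases hχ : ∃ a0 : t, χ a0 ≠ 0
      · obtain ⟨a0, ha0⟩ := hχ
        obtain ⟨f, hf, hfw, htr, h, hht, hh0, hef, hhe, hhf⟩ :=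
          T.exists_triple (hLG heL) hwt he0 ha0
        apply htr
        apply heR
        have hWe : ∀ x ∈ L, adE e x ∈ L := fun x hx => hL e heL x hx
        have hWh : ∀ x ∈ L, adE h x ∈ L := fun x hx => hL h (ht hht) x hx
        have r1 : adE h * adE e - adE e * adE h = 2 • adE e := by
          rw [adE_comm, hhe]
          apply LinearMap.ext
          intro x
          change (2 • e) * x - x * (2 • e) = 2 • (e * x - x * e)
          rw [smul_mul_assoc, mul_smul_comm, smul_sub]
        have r2 : adE h * adE f - adE f * adE h = -(2 • adE f) := by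
          rw [adE_comm, hhf]
          apply LinearMap.ext
          intro x
          change (-(2 • f)) * x - x * (-(2 • f)) = -(2 • (f * x - x * f))
          rw [neg_mul, mul_neg, smul_mul_assoc, mul_smul_comm, smul_sub]
          abel
        have r3 : adE e * adE f - adE f * adE e = adE h := by
          rw [adE_comm, hef]
        have h1 := Pool.Agent.TH113.J1773.obs ℂ (End ℂ V) (adE h) (adE e) (adE f) r1 r2 r3 L hWe
          hWh (htrace χ e heL f hf h hht he0 hh0 hwt hef hhe hhf) h (ht hht)
        rw [adE_apply] at h1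
        have h2 : f * h - h * f = 2 • f := by
          rw [← neg_sub (h * f) (f * h), hhf, neg_neg]
        rw [h2] at h1
        have h3 : f = (2 : ℂ)⁻¹ • (2 • f) := by
          rw [← ofNat_smul_eq_nsmul ℂ, smul_smul, inv_mul_cancel₀ two_ne_zero, one_smul]
        rw [h3]
        exact L.smul_mem _ h1
      · push Not at hχ
        obtain ⟨f, hf, hfw, htr⟩ := T.exists_dual (hLG heL) hwt he0
        apply htr
        apply heR
        apply ht
        apply T.cen f hf
        intro a ha
        have h1 := hfw ⟨a, ha⟩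
        rw [hχ, neg_zero, zero_smul] at h1
        exact sub_eq_zero.1 h1
  intro X hX hX'
  exact key X ⟨hX, hX'⟩

/-- the eigenvalues of the neutral element of a triple are real -/
theorem im_zero {I : Type} [Fintype I] (b : Basis I ℂ V) {c : I → ℂ} {e f h : End ℂ V}
    (hb : ∀ i, h (b i) = c i • b i) (h1 : e * f - f * e = h)
    (h3 : h * f - f * h = -(2 • f)) (i₀ : I) : (c i₀).im = 0 := by
  classical
  let Q : End ℂ V := b.constr ℂ fun i => if (c i).im = (c i₀).im then b i else 0
  have hQ : ∀ i, Q (b i) = if (c i).im = (c i₀).im then b i else 0 := fun i =>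
    b.constr_basis ℂ _ i
  have hcoord : ∀ (X : End ℂ V) (s : ℝ), h * X - X * h = (s : ℂ) • X →
      ∀ i j, b.repr (X (b i)) j ≠ 0 → (c j).im = (c i).im := by
    intro X s hX i j hne
    have h4 := LinearMap.congr_fun hX (b i)
    rw [LinearMap.sub_apply, Module.End.mul_apply, Module.End.mul_apply, hb, map_smul,
      LinearMap.smul_apply, sub_eq_iff_eq_add, ← add_smul] at h4
    have h5 := repr_diag b hb (X (b i)) j
    rw [h4, map_smul, Finsupp.smul_apply, smul_eq_mul] at h5
    have h6 := mul_right_cancel₀ hne h5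
    have h7 := congrArg Complex.im h6
    rw [Complex.add_im, Complex.ofReal_im, zero_add] at h7
    exact h7.symm
  have hcomm : ∀ (X : End ℂ V) (s : ℝ), h * X - X * h = (s : ℂ) • X → X * Q = Q * X := by
    intro X s hX
    refine b.ext fun i => ?_
    rw [Module.End.mul_apply, Module.End.mul_apply, hQ]
    have h4 : Q (X (b i)) = ∑ j, b.repr (X (b i)) j • Q (b j) := by
      conv_lhs => rw [← b.sum_repr (X (b i))]
      rw [map_sum]
      exact Finset.sum_congr rfl fun j _ => map_smul _ _ _
    rw [h4]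
    split_ifs with hi
    · conv_lhs => rw [← b.sum_repr (X (b i))]
      refine Finset.sum_congr rfl fun j _ => ?_
      by_cases hj : b.repr (X (b i)) j = 0
      · rw [hj, zero_smul, zero_smul]
      · rw [hQ, if_pos ((hcoord X s hX i j hj).trans hi)]
    · rw [map_zero]
      symm
      refine Finset.sum_eq_zero fun j _ => ?_
      by_cases hj : b.repr (X (b i)) j = 0
      · rw [hj, zero_smul]
      · rw [hQ, if_neg fun h5 => hi ((hcoord X s hX i j hj).symm.trans h5), smul_zero]
  have hf : f * Q = Q * f := hcomm f (-2) (by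
    rw [h3, ← ofNat_smul_eq_nsmul ℂ, ← neg_smul]
    norm_num)
  have htr : LinearMap.trace ℂ V (h * Q) = 0 := by
    have h4 : h * Q = e * (Q * f) - f * (e * Q) := by
      rw [← h1, ← hf]
      noncomm_ring
    rw [h4, LinearMap.map_sub, LinearMap.trace_mul_comm ℂ f (e * Q), mul_assoc, sub_self]
  have htr' : LinearMap.trace ℂ V (h * Q) = ∑ i, if (c i).im = (c i₀).im then c i else 0 := by
    rw [LinearMap.trace_eq_matrix_trace ℂ b, Matrix.trace]
    refine Finset.sum_congr rfl fun i _ => ?_
    rw [Matrix.diag_apply, LinearMap.toMatrix_apply, Module.End.mul_apply, hQ]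
    split_ifs with hi
    · rw [hb, map_smul, Finsupp.smul_apply, Basis.repr_self, Finsupp.single_eq_same, smul_eq_mul,
        mul_one]
    · rw [map_zero, map_zero, Finsupp.zero_apply]
  rw [htr'] at htr
  have h5 := congrArg Complex.im htr
  rw [Complex.im_sum, Complex.zero_im] at h5
  have h6 : ∀ i, (if (c i).im = (c i₀).im then c i else 0).im =
      if (c i).im = (c i₀).im then (c i₀).im else 0 := by
    intro i
    split_ifs with hi
    · exact hi
    · rfl
  rw [Finset.sum_congr rfl fun i _ => h6 i, ← Finset.sum_filter, Finset.sum_const,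
    nsmul_eq_mul] at h5
  refine (mul_eq_zero.1 h5).resolve_left ?_
  rw [Nat.cast_eq_zero, Finset.card_eq_zero]
  exact Finset.Nonempty.ne_empty ⟨i₀, Finset.mem_filter.2 ⟨Finset.mem_univ _, rfl⟩⟩

/-- the trace of `e * f` is a positive real number -/
theorem trace_pos {I : Type} [Fintype I] (b : Basis I ℂ V) {c : I → ℂ} {e f h : End ℂ V}
    (hb : ∀ i, h (b i) = c i • b i) (h1 : e * f - f * e = h) (h2 : h * e - e * h = 2 • e)
    (h3 : h * f - f * h = -(2 • f)) (hh : h ≠ 0) :
    ∃ x : ℝ, 0 < x ∧ LinearMap.trace ℂ V (e * f) = x := by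
  classical
  have hre : ∀ i, c i = ((c i).re : ℂ) := fun i => by
    apply Complex.ext
    · rw [Complex.ofReal_re]
    · rw [Complex.ofReal_im, im_zero b hb h1 h3 i]
  have htr : LinearMap.trace ℂ V (h * h) = ((∑ i, (c i).re ^ 2 : ℝ) : ℂ) := by
    rw [LinearMap.trace_eq_matrix_trace ℂ b, Matrix.trace, Complex.ofReal_sum]
    refine Finset.sum_congr rfl fun i _ => ?_
    rw [Matrix.diag_apply, LinearMap.toMatrix_apply, Module.End.mul_apply, hb, map_smul, hb,
      map_smul, map_smul, Finsupp.smul_apply, Finsupp.smul_apply, Basis.repr_self,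
      Finsupp.single_eq_same, smul_eq_mul, smul_eq_mul, mul_one, Complex.ofReal_pow, ← hre, sq]
  have htr2 : LinearMap.trace ℂ V (h * h) = 2 * LinearMap.trace ℂ V (e * f) := by
    have h4 : h * h = (h * e) * f - h * (f * e) := by
      conv_lhs => rw [← h1]
      rw [← h1]
      noncomm_ring
    have h5 : LinearMap.trace ℂ V (h * (f * e)) = LinearMap.trace ℂ V ((e * h) * f) := by
      rw [← mul_assoc h f e, LinearMap.trace_mul_comm ℂ (h * f) e, mul_assoc]
    rw [h4, LinearMap.map_sub, h5, ← LinearMap.map_sub, ← sub_mul, h2, smul_mul_assoc,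
      ← ofNat_smul_eq_nsmul ℂ, LinearMap.map_smul, smul_eq_mul]
  have hpos : 0 < ∑ i, (c i).re ^ 2 := by
    obtain ⟨i, hi⟩ : ∃ i, c i ≠ 0 := by
      by_contra hcon
      push Not at hcon
      exact hh (b.ext fun i => by rw [hb, hcon i, zero_smul, LinearMap.zero_apply])
    refine Finset.sum_pos' (fun i _ => sq_nonneg _) ⟨i, Finset.mem_univ _, ?_⟩
    have h4 : (c i).re ≠ 0 := fun h5 => hi (by rw [hre i, h5, Complex.ofReal_zero])
    positivity
  refine ⟨(∑ i, (c i).re ^ 2) / 2, by positivity, ?_⟩
  rw [htr] at htr2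
  rw [Complex.ofReal_div, htr2]
  simp

end Pool.Agent.R931.ZG
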