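import Mathlib
import Pool.Agent.R931.ZG.Nd
import Pool.Agent.Y114.RM.Stm

/-!
# The element of the torus which is dual to the sum of the roots of `L`
-/

set_option autoImplicit false

namespace Pool.Agent.R931.ZG

open Module Polynomial Pool.Agent.Y114.RM Pool.Agent.Y212.RM Pool.Agent.R931.BD
  Pool.Agent.R931.ZF

variable {V : Type} [AddCommGroup V] [Module ℂ V] [FiniteDimensional ℂ V]
  {G L t : Submodule ℂ (End ℂ V)}

/-- the trace form on the torus is nondegenerate -/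
theorem tor_nd (T : Tor G t) {a : End ℂ V} (ha : a ∈ t)
    (h : ∀ c ∈ t, LinearMap.trace ℂ V (a * c) = 0) : a = 0 := by
  refine T.nd a (T.le ha) ?_
  refine wt_induction t T.diag T.comm G (fun a ha X hX => T.lie a (T.le ha) X hX)
    (P := fun Y => LinearMap.trace ℂ V (a * Y) = 0) ?_ ?_ ?_
  · show LinearMap.trace ℂ V (a * 0) = 0
    rw [mul_zero, LinearMap.map_zero]
  · intro X Y _ _ hX hY
    show LinearMap.trace ℂ V (a * (X + Y)) = 0
    have hX' : LinearMap.trace ℂ V (a * X) = 0 := hX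
    have hY' : LinearMap.trace ℂ V (a * Y) = 0 := hY
    rw [mul_add, LinearMap.map_add, hX', hY', add_zero]
  · intro ψ X hX hψ
    show LinearMap.trace ℂ V (a * X) = 0
    by_cases h0 : ∃ c : t, ψ c ≠ 0
    · obtain ⟨c, hc⟩ := h0
      refine trace_wt (c := (0 : ℂ)) (d := ψ c) (X := a) (Y := X) ?_ (hψ c) ?_
      · rw [T.comm c c.2 a ha, sub_self, zero_smul]
      · rwa [zero_add]
    · push Not at h0
      refine h X (T.cen X hX fun c hc => ?_)
      have h1 := hψ ⟨c, hc⟩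
      rw [h0, zero_smul] at h1
      exact sub_eq_zero.1 h1

theorem exists_rep (T : Tor G t) (δ : t →ₗ[ℂ] ℂ) :
    ∃ d ∈ t, ∀ a : t, LinearMap.trace ℂ V (d * (a : End ℂ V)) = δ a := by
  let B : t →ₗ[ℂ] (t →ₗ[ℂ] ℂ) := LinearMap.mk₂ ℂ
    (fun d a : t => LinearMap.trace ℂ V ((d : End ℂ V) * (a : End ℂ V)))
    (fun d d' a => by rw [Submodule.coe_add, add_mul, LinearMap.map_add])
    (fun c d a => by rw [Submodule.coe_smul, smul_mul_assoc, LinearMap.map_smul])
    (fun d a a' => by rw [Submodule.coe_add, mul_add, LinearMap.map_add])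
    (fun c d a => by rw [Submodule.coe_smul, mul_smul_comm, LinearMap.map_smul])
  have hinj : Function.Injective B := by
    rw [← LinearMap.ker_eq_bot, eq_bot_iff]
    intro d hd
    rw [Submodule.mem_bot]
    apply Subtype.ext
    exact tor_nd T d.2 fun c hc => LinearMap.congr_fun (LinearMap.mem_ker.1 hd) ⟨c, hc⟩
  have hsurj : Function.Surjective B :=
    (LinearMap.injective_iff_surjective_of_finrank_eq_finrank
      (Subspace.dual_finrank_eq (K := ℂ) (V := t)).symm).1 hinj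
  obtain ⟨d, hd⟩ := hsurj δ
  exact ⟨d, d.2, fun a => LinearMap.congr_fun hd a⟩

/-- the adjoint action of the torus on `L` -/
noncomputable def adL (hL : IsLie L) (ht : t ≤ L) : t →ₗ[ℂ] End ℂ L where
  toFun a := (adE (a : End ℂ V)).restrict (hL.adE_mem (ht a.2))
  map_add' a b := LinearMap.ext fun x => Subtype.ext (by
    change ((a + b : t) : End ℂ V) * x - x * ((a + b : t) : End ℂ V) =
      ((a : End ℂ V) * x - x * (a : End ℂ V)) + ((b : End ℂ V) * x - x * (b : End ℂ V))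
    rw [Submodule.coe_add, add_mul, mul_add]
    abel)
  map_smul' c a := LinearMap.ext fun x => Subtype.ext (by
    change ((c • a : t) : End ℂ V) * x - x * ((c • a : t) : End ℂ V) =
      c • ((a : End ℂ V) * x - x * (a : End ℂ V))
    rw [Submodule.coe_smul, smul_mul_assoc, mul_smul_comm, smul_sub])

/-- the element which is dual to the sum of the roots of `L` -/
theorem exists_dual_sum (T : Tor G t) (hL : IsLie L) (ht : t ≤ L) :
    ∃ d ∈ t, ∀ (a : End ℂ V) (ha : a ∈ t), LinearMap.trace ℂ V (d * a) =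
      LinearMap.trace ℂ L ((adE a).restrict (hL.adE_mem (ht ha))) := by
  obtain ⟨d, hd, h⟩ := exists_rep T (LinearMap.trace ℂ L ∘ₗ adL hL ht)
  exact ⟨d, hd, fun a ha => h ⟨a, ha⟩⟩

/-- the values of the roots of `L` at the dual element are nonnegative, and if such a value is zero, the sum
of the roots vanishes on the coroot -/
theorem wt_nonneg (hNAT : S_NAT.{0, 0}) (hL : IsLie L) (ht : t ≤ L)
    {I : Type} [Fintype I] (b : Basis I ℂ V) {χ : I → t → ℂ}
    (hb : ∀ (a : t) i, (a : End ℂ V) (b i) = χ i a • b i) {d : End ℂ V} (hd : d ∈ t)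
    (hrep : ∀ (a : End ℂ V) (ha : a ∈ t), LinearMap.trace ℂ V (d * a) =
      LinearMap.trace ℂ L ((adE a).restrict (hL.adE_mem (ht ha))))
    {ψ : t → ℂ} {e f h : End ℂ V} (he : e ∈ L) (hh : h ∈ t) (hh0 : h ≠ 0)
    (hw : ∀ a : t, (a : End ℂ V) * e - e * a = ψ a • e) (h1 : e * f - f * e = h)
    (h2 : h * e - e * h = 2 • e) (h3 : h * f - f * h = -(2 • f)) :
    (∃ x : ℝ, 0 ≤ x ∧ ψ ⟨d, hd⟩ = x) ∧ (ψ ⟨d, hd⟩ = 0 →
      LinearMap.trace ℂ L ((adE h).restrict (hL.adE_mem (ht hh))) = 0) := by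
  have e1 : LinearMap.trace ℂ V (d * h) = ψ ⟨d, hd⟩ * LinearMap.trace ℂ V (e * f) := by
    have h4 : d * h = (d * e) * f - d * (f * e) := by
      rw [← h1]
      noncomm_ring
    have h5 : LinearMap.trace ℂ V (d * (f * e)) = LinearMap.trace ℂ V ((e * d) * f) := by
      rw [← mul_assoc d f e, LinearMap.trace_mul_comm ℂ (d * f) e, mul_assoc]
    rw [h4, LinearMap.map_sub, h5, ← LinearMap.map_sub, ← sub_mul]
    have h6 := hw ⟨d, hd⟩
    change d * e - e * d = _ at h6
    rw [h6, smul_mul_assoc, LinearMap.map_smul, smul_eq_mul]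
  obtain ⟨x, hx, hxe⟩ := trace_pos b (c := fun i => χ i ⟨h, hh⟩) (fun i => hb ⟨h, hh⟩ i) h1 h2 h3 hh0
  have r1 : adE h * adE e - adE e * adE h = 2 • adE e := by
    rw [adE_comm, h2]
    apply LinearMap.ext
    intro x
    change (2 • e) * x - x * (2 • e) = 2 • (e * x - x * e)
    rw [smul_mul_assoc, mul_smul_comm, smul_sub]
  have r2 : adE h * adE f - adE f * adE h = -(2 • adE f) := by
    rw [adE_comm, h3]
    apply LinearMap.ext
    intro x
    change (-(2 • f)) * x - x * (-(2 • f)) = -(2 • (f * x - x * f))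
    rw [neg_mul, mul_neg, smul_mul_assoc, mul_smul_comm, smul_sub]
    abel
  have r3 : adE e * adE f - adE f * adE e = adE h := by
    rw [adE_comm, h1]
  obtain ⟨n, hn⟩ := hNAT ℂ (End ℂ V) (adE e) (adE f) (adE h) r3 r1 r2 L
    (fun x hx => hL e he x hx) (hL.adE_mem (ht hh))
  rw [← hrep h hh, e1, hxe] at hn
  have hx0 : (x : ℂ) ≠ 0 := Complex.ofReal_ne_zero.2 hx.ne'
  constructor
  · refine ⟨n / x, by positivity, ?_⟩
    rw [Complex.ofReal_div, Complex.ofReal_natCast, ← hn, mul_div_cancel_right₀ _ hx0]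
  · intro h0
    rw [← hrep h hh, e1, h0, zero_mul]

/-- the elements of `L` do not decrease the value of the weights at the dual element -/
theorem coord_nonneg (hNAT : S_NAT.{0, 0}) (T : Tor G t) (hLG : L ≤ G) (hL : IsLie L) (ht : t ≤ L)
    {I : Type} [Fintype I] (b : Basis I ℂ V) {χ : I → t → ℂ}
    (hb : ∀ (a : t) i, (a : End ℂ V) (b i) = χ i a • b i) {d : End ℂ V} (hd : d ∈ t)
    (hrep : ∀ (a : End ℂ V) (ha : a ∈ t), LinearMap.trace ℂ V (d * a) =
      LinearMap.trace ℂ L ((adE a).restrict (hL.adE_mem (ht ha))))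
    {X : End ℂ V} (hX : X ∈ L) {i j : I} (hne : b.repr (X (b i)) j ≠ 0) :
    ∃ x : ℝ, 0 ≤ x ∧ χ j ⟨d, hd⟩ - χ i ⟨d, hd⟩ = x := by
  refine wt_induction t T.diag T.comm L (fun a ha X hX => hL a (ht ha) X hX)
    (P := fun X => b.repr (X (b i)) j ≠ 0 → ∃ x : ℝ, 0 ≤ x ∧ χ j ⟨d, hd⟩ - χ i ⟨d, hd⟩ = x)
    ?_ ?_ ?_ X hX hne
  · intro h
    exact absurd (by simp) h
  · intro X Y _ _ hX hY h
    by_cases h1 : b.repr (X (b i)) j = 0
    · refine hY fun h2 => h ?_
      rw [LinearMap.add_apply, map_add, Finsupp.add_apply, h1, h2, add_zero]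
    · exact hX h1
  · intro ψ X hX hw h
    have h1 : χ j ⟨d, hd⟩ - χ i ⟨d, hd⟩ = ψ ⟨d, hd⟩ := by
      rw [wt_coord b hb hw h, Pi.add_apply, add_sub_cancel_left]
    rw [h1]
    by_cases h0 : ψ ⟨d, hd⟩ = 0
    · exact ⟨0, le_rfl, by rw [h0, Complex.ofReal_zero]⟩
    · have hX0 : X ≠ 0 := by
        rintro rfl
        exact h (by simp)
      obtain ⟨f, -, -, -, h', hht, hh0, hef, hhe, hhf⟩ := T.exists_triple (hLG hX) hw hX0 h0
      exact (wt_nonneg hNAT hL ht b hb hd hrep hX hht hh0 hw hef hhe hhf).1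

end Pool.Agent.R931.ZG
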