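import Mathlib
import Pool.Agent.R931.ZG.Local

/-!
# An open subgroup preserves all subspaces which are stable under the Lie algebra
-/

set_option autoImplicit false
set_option linter.unusedSectionVars false
set_option linter.unusedVariables false

namespace Pool.Agent.R931.ZG

open Function Polynomial Module NumberField IsDedekindDomain TensorProduct Pool.Agent.TH118.SG
  Pool.Agent.Y114.RM Pool.Agent.Y114.MU Pool.Agent.Y114.TF Pool.Agent.Y114.GF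
  Pool.Agent.H204R3.GP Pool.Agent.R931.GD Pool.Agent.Y142.ZO Pool.Agent.Y142.ZI
  Pool.Agent.Y142.SS Pool.Agent.R931.BD Pool.Agent.R931.IR Pool.Agent.R931.ZL Pool.Agent.R931.ZM
  Pool.Agent.R931.PD Pool.Agent.R931.ZF
open Pool.Agent.Y497.ZO (Mt)
open Pool.Agent.Y936.SS (Om)

section

variable {K : Type} [Field K] [NumberField K] {Γ : Type} [Group Γ] [TopologicalSpace Γ]
  [IsTopologicalGroup Γ] [CompactSpace Γ] {s : Gal(AlgebraicClosure K/K) →* Γ} {N : ℕ} {wt : ℤ}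
  {c r : ℕ} {S : Set (HeightOneSpectrum (𝓞 K))} {P : HeightOneSpectrum (𝓞 K) → ℚ[X]}
  {ρ : ∀ (ℓ : ℕ) [Fact ℓ.Prime], Rep1 Γ N ℓ} {ℓ : ℕ} [Fact ℓ.Prime] {R : Set (Fin N → ℤ)}

/-- the subspaces over the algebraic closure which are stable under `L` -/
def lstab (L : Submodule ℚ_[ℓ] (End ℚ_[ℓ] (∀ _ : Unit, Fin N → ℚ_[ℓ]))) :
    Set (Submodule (Om ℓ) (Fin N → Om ℓ)) :=
  {U | ∀ A : Mt ℓ N, lin A ∈ L → ∀ u ∈ U, mOm ℓ N A u ∈ U}

theorem log_mem {L : Submodule ℚ_[ℓ] (End ℚ_[ℓ] (∀ _ : Unit, Fin N → ℚ_[ℓ]))}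
    (hL : ∀ X, X ∈ L ↔ X ∈ LT (sumRep (ρ ℓ))) {γ : Γ} {z : Fin N → Om ℓ}
    {e : Basis (Fin N) (Om ℓ) (Fin N → Om ℓ)} {f : ℚ_[ℓ][X]}
    (hd : OmDat ρ s S P r ℓ R γ z e f) : lin (aeval (matRep (ρ ℓ) γ) f) ∈ L := by
  rw [hL]
  refine ⟨?_, ?_⟩
  · rintro W ⟨Δ, hΔ, hW⟩
    exact hd.log.stab hΔ hW
  · rintro m φ ⟨Δ, hΔ, hφ⟩
    obtain ⟨M, hM, -, hMΔ⟩ := Subgroup.exists_pow_mem_of_index_ne_zero hΔ.index_ne_zero γ
    refine (hd.log.tor hM).1 m φ fun v => ?_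
    rw [← map_pow, ← map_pow, inv_pow]
    exact hφ _ hMΔ v

theorem finite_lstab {L : Submodule ℚ_[ℓ] (End ℚ_[ℓ] (∀ _ : Unit, Fin N → ℚ_[ℓ]))}
    (hL : ∀ X, X ∈ L ↔ X ∈ LT (sumRep (ρ ℓ))) {γ : Γ} {z : Fin N → Om ℓ}
    {e : Basis (Fin N) (Om ℓ) (Fin N → Om ℓ)} {f : ℚ_[ℓ][X]}
    (hd : OmDat ρ s S P r ℓ R γ z e f) : Finite (lstab L) := by
  let F : lstab L → Set (Fin N) := fun U => {i | e i ∈ U.1}
  have hle : ∀ U₁ U₂ : lstab L, F U₁ = F U₂ → U₁.1 ≤ U₂.1 := by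
    intro U₁ U₂ hF u hu
    rw [← e.sum_repr u]
    refine Submodule.sum_mem _ fun i _ => ?_
    by_cases hi : e.repr u i = 0
    · rw [hi, zero_smul]
      exact Submodule.zero_mem _
    · refine Submodule.smul_mem _ _ ?_
      have h1 := comp_mem e hd.log.yinj (fun i => mO_eig hd.eig f i) U₁.1
        (U₁.2 _ (log_mem hL hd)) hu hi
      have h2 : i ∈ F U₁ := h1
      rw [hF] at h2
      exact h2
  have hinj : Injective F := fun U₁ U₂ hF =>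
    Subtype.ext (le_antisymm (hle U₁ U₂ hF) (hle U₂ U₁ hF.symm))
  exact Finite.of_injective F hinj

theorem lstab_map {L : Submodule ℚ_[ℓ] (End ℚ_[ℓ] (∀ _ : Unit, Fin N → ℚ_[ℓ]))}
    (hAd : ∀ γ, ∀ X ∈ L, AdE (sumRep (ρ ℓ) γ) (sumRep (ρ ℓ) γ⁻¹) X ∈ L) (δ : Γ)
    {U : Submodule (Om ℓ) (Fin N → Om ℓ)} (hU : U ∈ lstab L) :
    U.map (mOm ℓ N (matRep (ρ ℓ) δ)) ∈ lstab L := by
  rintro A hA _ ⟨u, hu, rfl⟩
  have h1 : lin (matRep (ρ ℓ) δ⁻¹ * (A * matRep (ρ ℓ) δ)) ∈ L := by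
    have h2 := hAd δ⁻¹ _ hA
    rw [AdE_apply, inv_inv, ZL.sumRep_eq, ZL.sumRep_eq, ← lin_mul, ← lin_mul] at h2
    exact h2
  refine ⟨mOm ℓ N (matRep (ρ ℓ) δ⁻¹ * (A * matRep (ρ ℓ) δ)) u, hU _ h1 u hu, ?_⟩
  rw [← Module.End.mul_apply, ← Module.End.mul_apply, ← map_mul, ← map_mul, ← mul_assoc,
    ← map_mul, mul_inv_cancel, map_one, one_mul]

/-- an open subgroup preserves all subspaces which are stable under the Lie algebra -/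
theorem exists_fix {L : Submodule ℚ_[ℓ] (End ℚ_[ℓ] (∀ _ : Unit, Fin N → ℚ_[ℓ]))}
    (hAd : ∀ γ, ∀ X ∈ L, AdE (sumRep (ρ ℓ) γ) (sumRep (ρ ℓ) γ⁻¹) X ∈ L)
    (hfin : Finite (lstab L)) : ∃ Δ : Subgroup Γ, Δ.FiniteIndex ∧ ∀ U ∈ lstab L, ∀ δ ∈ Δ,
      ∀ u ∈ U, mOm ℓ N (matRep (ρ ℓ) δ) u ∈ U := by
  let φ : Γ →* Function.End (lstab L) :=
    { toFun := fun δ U => ⟨U.1.map (mOm ℓ N (matRep (ρ ℓ) δ)), lstab_map hAd δ U.2⟩
      map_one' := by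
        funext U
        apply Subtype.ext
        change U.1.map (mOm ℓ N (matRep (ρ ℓ) 1)) = U.1
        rw [map_one, map_one]
        exact Submodule.map_id _
      map_mul' := by
        intro δ δ'
        funext U
        apply Subtype.ext
        change U.1.map (mOm ℓ N (matRep (ρ ℓ) (δ * δ'))) =
          (U.1.map (mOm ℓ N (matRep (ρ ℓ) δ'))).map (mOm ℓ N (matRep (ρ ℓ) δ))
        rw [map_mul, map_mul, ← Submodule.map_comp]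
        rfl }
  let ψ : Γ →* Equiv.Perm (lstab L) := φ.toHomPerm
  refine ⟨ψ.ker, inferInstance, fun U hU δ hδ u hu => ?_⟩
  have h1 : ψ δ = 1 := hδ
  have h2 := congrArg Subtype.val (Equiv.congr_fun h1 ⟨U, hU⟩)
  have h3 : U.map (mOm ℓ N (matRep (ρ ℓ) δ)) = U := h2
  rw [← h3]
  exact Submodule.mem_map_of_mem hu

end

end Pool.Agent.R931.ZG
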