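import Mathlib
import Pool.Agent.R931.ZG.Dual
import Pool.Agent.R931.ZG.Fix
import Pool.Agent.Y960.RM.Nat

/-!
# The rational lattice condition implies the semisimplicity at `ℓ`
-/

set_option autoImplicit false
set_option linter.unusedSectionVars false
set_option linter.unusedVariables false

namespace Pool.Agent.R931.ZG

section defs

open Pool.Agent.R931.PD

/-- For all elements `b` of all the permutation groups which contain `N` and have at least `m` orbits, some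
nonzero multiple of `e_i - e_{b(i)}` is contained in the lattice of `N`. (For instance `N` has at most `m`
orbits, or multiples of all the vectors `e_i - e_j` are contained in the lattice.) -/
def LatticeRat {n : ℕ} (R : Set (Fin n → ℤ)) (m : ℕ) (N : Subgroup (Equiv.Perm (Fin n))) : Prop :=
  ∀ B : Subgroup (Equiv.Perm (Fin n)), N ≤ B → m ≤ orbitCount B → ∀ b ∈ B, ∀ i, ∃ k : ℤ, k ≠ 0 ∧
    k • (Pi.single i 1 - Pi.single (b i) 1 : Fin n → ℤ) ∈ latticeOf R N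

end defs

open Function Polynomial Module NumberField IsDedekindDomain TensorProduct Pool.Agent.TH118.SG
  Pool.Agent.Y114.RM Pool.Agent.Y114.MU Pool.Agent.Y114.TF Pool.Agent.Y114.GF
  Pool.Agent.H204R3.GP Pool.Agent.R931.GD Pool.Agent.Y142.ZO Pool.Agent.Y142.ZI
  Pool.Agent.Y142.SS Pool.Agent.R931.BD Pool.Agent.R931.IR Pool.Agent.R931.ZL Pool.Agent.R931.ZM
  Pool.Agent.R931.PD Pool.Agent.R931.ZF
open Pool.Agent.W569.FM Pool.Agent.W571.FM Pool.Agent.Y115.R Pool.Agent.Y115.T Pool.Agent.Y115.Chi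
open Pool.Agent.Y497.ZO (Mt)
open Pool.Agent.Y936.SS (Om)

section

variable {K : Type} [Field K] [NumberField K] {Γ : Type} [Group Γ] [TopologicalSpace Γ]
  [IsTopologicalGroup Γ] [CompactSpace Γ] {s : Gal(AlgebraicClosure K/K) →* Γ} {N : ℕ} {wt : ℤ}
  {c r : ℕ} {S : Set (HeightOneSpectrum (𝓞 K))} {P : HeightOneSpectrum (𝓞 K) → ℚ[X]}
  {ρ : ∀ (ℓ : ℕ) [Fact ℓ.Prime], Rep1 Γ N ℓ} {ℓ : ℕ} [Fact ℓ.Prime] {R : Set (Fin N → ℤ)}

/-- the rational lattice condition implies the semisimplicity -/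
theorem semi_of_latticeRat (hN : 0 < N) {𝔤 : End1 N ℓ} (hmot : Motivic (ρ ℓ) 𝔤)
    (hrk : RankAtMost (k := ℚ_[ℓ]) (V := ∀ _ : Unit, Fin N → ℚ_[ℓ]) 𝔤 r) (hcont : Conts (ρ ℓ))
    {γ : Γ} {z : Fin N → Om ℓ}
    {e : Basis (Fin N) (Om ℓ) (Fin N → Om ℓ)} {f : ℚ_[ℓ][X]} (hd : OmDat ρ s S P r ℓ R γ z e f)
    {H : Subgroup (Equiv.Perm (Fin N))} (hlab : LabelsO ρ ℓ e H) {m : ℕ}
    (hlat : LatticeRat R m H) (hend : m ≤ commutantDim 𝔤) : Semisimple (ρ ℓ) := by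
  classical
  have hNe : Nonempty (Fin N) := ⟨⟨0, hN⟩⟩
  obtain ⟨j, hj⟩ := exists_j ℓ ℚ_[ℓ] ℚ (algebraMap ℚ ℚ_[ℓ]) (algebraMap ℚ ℂ)
  let alg : Algebra ℚ_[ℓ] ℂ := j.toAlgebra
  let σ : Om ℓ →ₐ[ℚ_[ℓ]] ℂ := IsAlgClosed.lift
  have hσ : Injective σ := σ.toRingHom.injective
  have h := inputs
  have h2 := inputs2
  set W₀ : Type := ∀ _ : Unit, Fin N → ℚ_[ℓ] with hW₀
  obtain ⟨L, hL, hLie, hAd, hlog⟩ := h.lie ℚ_[ℓ] (∀ _ : Unit, Fin N → ℚ_[ℓ]) _ (sumRep (ρ ℓ))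
  have hLG : L ≤ 𝔤 := fun X hX => hmot.algebraic X fun m φ hφ =>
    ((hL X).1 hX).2 m φ (hmot.tate m φ hφ)
  obtain ⟨Δ', hΔ', hcommΔ⟩ := h2.tfr ℓ Unit (fun _ => N) _ (ρ ℓ) (fun i => hcont i) (comm L)
    (comm_conj (sumRep (ρ ℓ)) hAd) (comm_order (sumRep (ρ ℓ)) h h2 hL)
  obtain ⟨Δ₁, hΔ₁, hfix⟩ := exists_fix hAd (finite_lstab hL hd)
  -- the eigenvectors over the complex numbers
  set gC : End ℂ (ℂ ⊗[ℚ_[ℓ]] (∀ _ : Unit, Fin N → ℚ_[ℓ])) := (sumRep (ρ ℓ) γ).baseChange ℂ with hgC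
  let v : Fin N → ℂ ⊗[ℚ_[ℓ]] (∀ _ : Unit, Fin N → ℚ_[ℓ]) :=
    fun i => (Phi ℓ N).symm fun l => σ (e i l)
  have hev : ∀ (A : Mt ℓ N) (i : Fin N) (lam : Om ℓ), mOm ℓ N A (e i) = lam • e i →
      (lin A).baseChange ℂ (v i) = σ lam • v i := by
    intro A i lam hA
    apply (Phi ℓ N).injective
    rw [Phi_lin, map_smul, LinearEquiv.apply_symm_apply, mO_sig]
    change (fun l => σ (mOm ℓ N A (e i) l)) = _
    rw [hA]
    funext l
    rw [Pi.smul_apply, smul_eq_mul, map_mul, Pi.smul_apply, smul_eq_mul]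
  have hgv : ∀ i, gC (v i) = σ (z i) • v i := by
    intro i
    rw [hgC, ZL.sumRep_eq]
    exact hev _ i _ (hd.eig i)
  have hv0 : ∀ i, v i ≠ 0 := by
    intro i h0
    apply e.ne_zero i
    have h3 := congrArg (Phi ℓ N) h0
    rw [LinearEquiv.apply_symm_apply, map_zero] at h3
    funext l
    have h4 : σ (e i l) = 0 := congrFun h3 l
    exact hσ (by rw [h4, Pi.zero_apply, map_zero])
  have hli : LinearIndependent ℂ v := Module.End.eigenvectors_linearIndependent' gC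
    (fun i => σ (z i)) (hσ.comp hd.log.zinj) v fun i =>
      ⟨End.mem_eigenspace_iff.2 (hgv i), hv0 i⟩
  have hcard : Fintype.card (Fin N) = finrank ℂ (ℂ ⊗[ℚ_[ℓ]] (∀ _ : Unit, Fin N → ℚ_[ℓ])) := by
    rw [(Phi ℓ N).finrank_eq, Module.finrank_fin_fun, Fintype.card_fin]
  let b : Basis (Fin N) ℂ (ℂ ⊗[ℚ_[ℓ]] (∀ _ : Unit, Fin N → ℚ_[ℓ])) :=
    basisOfLinearIndependentOfCardEqFinrank hli hcard
  have hbv : ∀ i, b i = v i := fun i => by
    rw [coe_basisOfLinearIndependentOfCardEqFinrank]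
  -- the torus
  obtain ⟨d, hdr⟩ := hd.rank
  have hcen := torus_cen (sumRep (ρ ℓ)) h h2.jord h2.cartan hL hLG hmot.bracket hmot.nondeg
    hmot.algebraic hrk γ (fun i => σ (z (d i))) (fun i => End.hasEigenvalue_of_hasEigenvector
      ⟨End.mem_eigenspace_iff.2 (hgv (d i)), hv0 (d i)⟩) (fun e' he' => by
      have h3 : ∏ i, z (d i) ^ e' i = 1 := by
        apply hσ
        rw [map_prod, map_one, ← he']
        exact Finset.prod_congr rfl fun i _ => map_zpow₀ σ _ _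
      have hz0 : ∀ i, z i ≠ 0 := fun i => ne_zero_of_root (ρ ℓ) γ (hd.log.zroot i)
      exact hdr e' ((mem_mrel_comp hz0 d e').1 ⟨1, one_pos, by rw [pow_one]; exact h3⟩))
  set t := tor gC with ht
  have htL : t ≤ bcS ℂ L := tor_le (sumRep (ρ ℓ)) h hL γ
  have hLC : IsLie (bcS ℂ L) := (h.bc ℚ_[ℓ] ℂ _ L).2.1 hLie
  have hGC : IsLie (bcS ℂ 𝔤) := (h.bc ℚ_[ℓ] ℂ _ 𝔤).2.1 hmot.bracket
  have hLGC : bcS ℂ L ≤ bcS ℂ 𝔤 := bcS_mono hLG
  have hNG : NonDeg (bcS ℂ 𝔤) := (h.bc ℚ_[ℓ] ℂ _ 𝔤).2.2.1 hmot.nondeg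
  have TG : Pool.Agent.Y212.RM.Tor (bcS ℂ 𝔤) t :=
    ⟨hGC, hNG, htL.trans hLGC, tor_diag gC, tor_comm gC, hcen⟩
  -- the weights
  let χ : Fin N → t → ℂ := fun i a => b.repr ((a : End ℂ _) (b i)) i
  have hχθ : ∀ a : t, ∃ θ : Additive ℂˣ →+ ℂ, ∀ i, (a : End ℂ _) (b i) = ext0 θ (σ (z i)) • b i := by
    rintro ⟨a, θ, hθ⟩
    refine ⟨θ, fun i => hθ (σ (z i)) (b i) ?_⟩
    refine Pool.Agent.TH118.SG.mem_gen.2 ⟨1, ?_⟩
    rw [pow_one, LinearMap.sub_apply, Module.algebraMap_end_apply, sub_eq_zero, hbv]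
    exact hgv i
  have hχ : ∀ a : t, ∃ θ : Additive ℂˣ →+ ℂ, ∀ i, χ i a = ext0 θ (σ (z i)) := by
    intro a
    obtain ⟨θ, hθ⟩ := hχθ a
    refine ⟨θ, fun i => ?_⟩
    change b.repr ((a : End ℂ _) (b i)) i = _
    rw [hθ, map_smul, Finsupp.smul_apply, Basis.repr_self, Finsupp.single_eq_same, smul_eq_mul,
      mul_one]
  have hb : ∀ (a : t) i, (a : End ℂ _) (b i) = χ i a • b i := by
    intro a i
    obtain ⟨θ, hθ⟩ := hχθ a
    change _ = b.repr ((a : End ℂ _) (b i)) i • b i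
    rw [hθ, map_smul, Finsupp.smul_apply, Basis.repr_self, Finsupp.single_eq_same, smul_eq_mul,
      mul_one]
  let Ξ : (Fin N → ℤ) →+ (t → ℂ) :=
    { toFun := fun n a => ∑ i, (n i : ℂ) * χ i a
      map_zero' := by
        funext a
        simp
      map_add' := fun m n => by
        funext a
        rw [Pi.add_apply, ← Finset.sum_add_distrib]
        refine Finset.sum_congr rfl fun i _ => ?_
        rw [Pi.add_apply, Int.cast_add, add_mul] }
  have hΞ1 : ∀ i, Ξ (Pi.single i 1) = χ i := by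
    intro i
    funext a
    change ∑ l, ((Pi.single i (1 : ℤ) : Fin N → ℤ) l : ℂ) * χ l a = χ i a
    rw [Finset.sum_eq_single i]
    · rw [Pi.single_eq_same, Int.cast_one, one_mul]
    · intro l _ hl
      rw [Pi.single_eq_of_ne hl, Int.cast_zero, zero_mul]
    · intro hi
      exact absurd (Finset.mem_univ i) hi
  have hΞR : ∀ n ∈ R, Ξ n = 0 := by
    intro n hn
    rw [← hd.rel] at hn
    obtain ⟨m', hm', hn⟩ := hn
    funext a
    obtain ⟨θ, hθ⟩ := hχ a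
    change ∑ i, (n i : ℂ) * χ i a = 0
    have hz0 : ∀ i, σ (z i) ≠ 0 := fun i h0 =>
      ne_zero_of_root (ρ ℓ) γ (hd.log.zroot i) (hσ (by rw [h0, map_zero]))
    have h3 : (∏ i, σ (z i) ^ n i) ^ m' = 1 := by
      rw [← map_one σ, ← hn, map_pow, map_prod]
      congr 1
      exact Finset.prod_congr rfl fun i _ => (map_zpow₀ σ _ _).symm
    have h4 := ext0_pow θ (∏ i, σ (z i) ^ n i) hm'
    rw [h3, ext0_one, ext0_prod θ _ _ fun i _ => zpow_ne_zero _ (hz0 i)] at h4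
    have h5 : (m' : ℂ) ≠ 0 := Nat.cast_ne_zero.2 hm'.ne'
    have h6 := (mul_eq_zero.1 h4.symm).resolve_left h5
    rw [← h6]
    refine Finset.sum_congr rfl fun i _ => ?_
    rw [ext0_zpow θ (hz0 i), hθ]
  -- the coordinates
  have hrepr : ∀ (A : Mt ℓ N) (i j : Fin N), b.repr ((lin A).baseChange ℂ (b i)) j =
      σ (e.repr (mOm ℓ N A (e i)) j) := by
    intro A i j
    have h3 : (lin A).baseChange ℂ (b i) = ∑ l, σ (e.repr (mOm ℓ N A (e i)) l) • b l := by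
      apply (Phi ℓ N).injective
      rw [Phi_lin, hbv, LinearEquiv.apply_symm_apply, mO_sig, map_sum]
      funext l
      rw [Finset.sum_apply]
      have h4 : ∀ l', (Phi ℓ N (σ (e.repr (mOm ℓ N A (e i)) l') • b l')) l =
          σ (e.repr (mOm ℓ N A (e i)) l' * e l' l) := by
        intro l'
        rw [map_smul, hbv, LinearEquiv.apply_symm_apply, Pi.smul_apply, smul_eq_mul, map_mul]
      rw [Finset.sum_congr rfl fun l' _ => h4 l', ← map_sum]
      congr 1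
      conv_lhs => rw [← e.sum_repr (mO ℚ_[ℓ] (Om ℓ) (Fin N) A (e i))]
      rw [Finset.sum_apply]
      rfl
    rw [h3, b.repr_sum_self]
  -- the dual element of the sum of the roots of `L`
  obtain ⟨d₀, hd₀, hrep⟩ := exists_dual_sum TG hLC htL
  have hflag : ∀ a ∈ H, ∀ i₀, ∃ x : ℝ, 0 ≤ x ∧ χ (a i₀) ⟨d₀, hd₀⟩ - χ i₀ ⟨d₀, hd₀⟩ = x := by
    intro a ha i₀
    let cl : Set (Fin N) := {l | ∃ x : ℝ, 0 ≤ x ∧ χ l ⟨d₀, hd₀⟩ - χ i₀ ⟨d₀, hd₀⟩ = x}
    let U : Submodule (Om ℓ) (Fin N → Om ℓ) :=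
      { carrier := {u | ∀ j, j ∉ cl → e.repr u j = 0}
        add_mem' := fun {u w} hu hw j hj => by
          rw [map_add, Finsupp.add_apply, hu j hj, hw j hj, add_zero]
        zero_mem' := fun j _ => by rw [map_zero, Finsupp.zero_apply]
        smul_mem' := fun a u hu j hj => by
          rw [map_smul, Finsupp.smul_apply, hu j hj, smul_zero] }
    have hU : U ∈ lstab L := by
      intro A hA u hu j hj
      have h3 : e.repr (mOm ℓ N A u) j = ∑ i, e.repr u i * e.repr (mOm ℓ N A (e i)) j := by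
        conv_lhs => rw [← e.sum_repr u]
        rw [map_sum, map_sum, Finsupp.finsetSum_apply]
        exact Finset.sum_congr rfl fun i _ => by
          rw [map_smul, map_smul, Finsupp.smul_apply, smul_eq_mul]
      rw [h3]
      refine Finset.sum_eq_zero fun i _ => ?_
      by_cases hi : i ∈ cl
      · by_contra hne
        have h4 : e.repr (mOm ℓ N A (e i)) j ≠ 0 := fun h5 => hne (by rw [h5, mul_zero])
        have h5 : b.repr ((lin A).baseChange ℂ (b i)) j ≠ 0 := by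
          rw [hrepr]
          exact fun h6 => h4 (hσ (by rw [h6, map_zero]))
        obtain ⟨x, hx, hxe⟩ := coord_nonneg Pool.Agent.Y960.RM.nat TG hLGC hLC htL b hb hd₀ hrep
          (mem_bcS hA) h5
        obtain ⟨y, hy, hye⟩ := hi
        refine hj ⟨x + y, by positivity, ?_⟩
        rw [Complex.ofReal_add, ← hxe, ← hye]
        ring
      · rw [hu i hi, zero_mul]
    have hmem : ∀ i, e i ∈ U ↔ i ∈ cl := by
      intro i
      constructor
      · intro h3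
        by_contra h4
        have h5 := h3 i h4
        rw [Basis.repr_self, Finsupp.single_eq_same] at h5
        exact one_ne_zero h5
      · intro h3 j hj
        rw [Basis.repr_self, Finsupp.single_eq_of_ne]
        rintro rfl
        exact hj h3
    have h3 := hlab Δ₁ hΔ₁ U (hfix U hU) a ha i₀
    rw [hmem, hmem] at h3
    exact h3.2 ⟨0, le_rfl, by rw [sub_self, Complex.ofReal_zero]⟩
  have hflag0 : ∀ a ∈ H, ∀ i, χ (a i) ⟨d₀, hd₀⟩ = χ i ⟨d₀, hd₀⟩ := by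
    intro a ha i
    obtain ⟨x, hx, hxe⟩ := hflag a ha i
    obtain ⟨y, hy, hye⟩ := hflag a⁻¹ (H.inv_mem ha) (a i)
    have h3 : a⁻¹ (a i) = i := Equiv.symm_apply_apply a i
    rw [h3] at hye
    have h4 : ((x + y : ℝ) : ℂ) = 0 := by
      rw [Complex.ofReal_add, ← hxe, ← hye]
      ring
    have h5 : x + y = 0 := Complex.ofReal_eq_zero.1 h4
    have h6 : x = 0 := by linarith
    rw [h6, Complex.ofReal_zero] at hxe
    exact sub_eq_zero.1 hxe
  have hlat0 : ∀ n ∈ latticeOf R H, Ξ n ⟨d₀, hd₀⟩ = 0 := by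
    intro n hn
    induction hn using AddSubgroup.closure_induction with
    | mem n hn =>
      rcases hn with hn | ⟨a, ha, i, rfl⟩
      · rw [hΞR n hn, Pi.zero_apply]
      · rw [map_sub, hΞ1, hΞ1, Pi.sub_apply, hflag0 a ha i, sub_self]
    | zero => rw [map_zero, Pi.zero_apply]
    | add x y _ _ hx hy => rw [map_add, Pi.add_apply, hx, hy, add_zero]
    | neg x _ hx => rw [map_neg, Pi.neg_apply, hx, neg_zero]
  have hroot : ∀ (α : t → ℂ) (x : End ℂ (ℂ ⊗[ℚ_[ℓ]] (∀ _ : Unit, Fin N → ℚ_[ℓ]))),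
      x ∈ bcS ℂ 𝔤 → x ≠ 0 →
      (∀ a : t, (a : End ℂ (ℂ ⊗[ℚ_[ℓ]] (∀ _ : Unit, Fin N → ℚ_[ℓ]))) * x -
        x * (a : End ℂ (ℂ ⊗[ℚ_[ℓ]] (∀ _ : Unit, Fin N → ℚ_[ℓ]))) = α a • x) →
      ∃ i l, χ l = χ i + α ∧ ∃ k : ℤ, k ≠ 0 ∧
        k • (Pi.single i 1 - Pi.single l 1 : Fin N → ℤ) ∈ latticeOf R H := by
    intro α x hx hx0 hw
    obtain ⟨i, hi⟩ : ∃ i, x (b i) ≠ 0 := by
      by_contra hcon
      push Not at hcon
      exact hx0 (b.ext fun i => by rw [hcon i, LinearMap.zero_apply])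
    obtain ⟨l, hl⟩ : ∃ l, b.repr (x (b i)) l ≠ 0 := by
      by_contra hcon
      push Not at hcon
      apply hi
      rw [← b.sum_repr (x (b i))]
      exact Finset.sum_eq_zero fun l _ => by rw [hcon l, zero_smul]
    have h3 : χ l = χ i + α := wt_coord b hb hw hl
    have hblock : Equiv.swap i l ∈ blockG (N := N) (ℓ := ℓ) 𝔤 e := by
      have h4 : ∀ A ∈ comG (N := N) (ℓ := ℓ) 𝔤,
          e.repr (mOm ℓ N A (e l)) l = e.repr (mOm ℓ N A (e i)) i := by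
        intro A hA
        have h5 := (comG_diag hd hlab hmot A hA).1
        have h6 := bcS_comm (C := ℂ) hA x hx
        have h7 := LinearMap.congr_fun h6 (b i)
        rw [Module.End.mul_apply, Module.End.mul_apply, hbv, hev A i _ (h5 i), map_smul,
          ← hbv] at h7
        have h8 := repr_diag b (X := (lin A).baseChange ℂ)
          (y := fun i => σ (e.repr (mOm ℓ N A (e i)) i)) (fun i => by
            rw [hbv]
            exact hev A i _ (h5 i)) (x (b i)) l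
        rw [← h7, map_smul, Finsupp.smul_apply, smul_eq_mul] at h8
        exact hσ (mul_right_cancel₀ hl h8).symm
      intro A hA l'
      by_cases h5 : l' = i
      · rw [h5, Equiv.swap_apply_left]
        exact h4 A hA
      · by_cases h6 : l' = l
        · rw [h6, Equiv.swap_apply_right]
          exact (h4 A hA).symm
        · rw [Equiv.swap_apply_of_ne_of_ne h5 h6]
    have h4 := hlat _ (le_blockG hd hlab hmot) (orbit_blockG hd hlab hmot hend) _ hblock i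
    rw [Equiv.swap_apply_left] at h4
    exact ⟨i, l, h3, h4⟩
  have hNL : NonDeg (bcS ℂ L) := by
    refine nonDeg_of_trace TG hLGC hLC htL fun ψ x hx f' hf' h' hh' hx0 hh0 hw e1 e2 e3 =>
      (wt_nonneg Pool.Agent.Y960.RM.nat hLC htL b hb hd₀ hrep hx hh' hh0 hw e1 e2 e3).2 ?_
    obtain ⟨i, l, h3, k, hk, h4⟩ := hroot ψ x (hLGC hx) hx0 hw
    have h5 := hlat0 _ h4
    rw [map_zsmul, map_sub, hΞ1, hΞ1, h3, sub_add_cancel_left, Pi.smul_apply, Pi.neg_apply,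
      zsmul_eq_mul, mul_neg, neg_eq_zero] at h5
    exact (mul_eq_zero.1 h5).resolve_left (Int.cast_ne_zero.2 hk)
  intro Δ hΔ U hU
  have hUL : ∀ X ∈ L, ∀ x ∈ U, X x ∈ U := fun X hX => ((hL X).1 hX).1 U ⟨Δ, hΔ, hU⟩
  obtain ⟨Q, hQ1, hQ2, hQ3⟩ := h2.weyl ℂ _ (bcS ℂ L) hLC hNL (fun x hx hxL =>
    tor_diag gC x (hcen x (hLGC hx) fun a ha => (hxL a (htL ha)).symm)) (U.baseChange ℂ)
    (bcS_stable hUL)
  obtain ⟨π, hπ⟩ := exists_pi ℚ_[ℓ] ℂ
  refine Pool.Agent.Y41.RM.exists_compl_of_commute (sumRep (ρ ℓ)) Δ Δ' hΔ' U hU (pM π Q)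
    (fun x => ?_) (fun x hx => ?_) fun s hs => (hcommΔ s hs (pM π Q) fun X hX => ?_).symm
  · rw [pM_apply]
    exact pv_mem π (hQ2 _)
  · rw [pM_apply, hQ3 _ (Submodule.tmul_mem_baseChange_of_mem 1 hx), pv_tmul, hπ, one_smul]
  · rw [← pM_bc_mul, hQ1 _ (mem_bcS hX), pM_mul_bc]

end

end Pool.Agent.R931.ZG
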