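import Mathlib
import Pool.Agent.R931.ZG.AtEx
import Pool.Agent.R931.ZG.Rat

/-!
# Semisimplicity at a given prime: three sources
-/

set_option autoImplicit false
set_option linter.unusedSectionVars false
set_option linter.unusedVariables false

namespace Pool.Agent.R931.ZG

open Function Polynomial Module NumberField IsDedekindDomain TensorProduct Pool.Agent.TH118.SG
  Pool.Agent.Y114.RM Pool.Agent.Y114.MU Pool.Agent.Y114.TF Pool.Agent.Y114.GF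
  Pool.Agent.H204R3.GP Pool.Agent.R931.GD Pool.Agent.Y142.ZO Pool.Agent.Y142.ZI
  Pool.Agent.Y142.SS Pool.Agent.R931.BD Pool.Agent.R931.ZL Pool.Agent.R931.ZM
  Pool.Agent.R931.PD Pool.Agent.R931.ZF
open Pool.Agent.Y936.SS (Om)

section

variable {K : Type} [Field K] [NumberField K] {Γ : Type} [Group Γ] [TopologicalSpace Γ]
  [IsTopologicalGroup Γ] [CompactSpace Γ] {s : Gal(AlgebraicClosure K/K) →* Γ} {N : ℕ} {wt : ℤ}
  {c r : ℕ} {S : Set (HeightOneSpectrum (𝓞 K))} {P : HeightOneSpectrum (𝓞 K) → ℚ[X]}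
  {ρ : ∀ (ℓ : ℕ) [Fact ℓ.Prime], Rep1 Γ N ℓ}

/-- semisimplicity at a given prime -/
theorem semi_at3 (h : SetupG K Γ s N wt c r S P ρ) (R : Set (Fin N → ℤ)) (hRr : RankGE r R)
    (ℓ : ℕ) [Fact ℓ.Prime] (T : Set (Equiv.Perm (Fin N))) (hne : T.Nonempty)
    (τ : Gal(PadicAlgCl ℓ/ℚ_[ℓ])) (hτ : ∀ a ∈ T, TypeOccurs s (ρ ℓ) R τ a)
    (hm : ForcesAt (relAut R) T fun H =>
      (∃ Δ : Subgroup Γ, Δ.FiniteIndex ∧
        orbitCount H ≤ centralizerDim (ρ ℓ () '' (Δ : Set Γ))) ∨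
      (Polarized (ρ ℓ) ∧ SelfDualOrbits R H) ∨
      ∃ 𝔤 : End1 N ℓ, Motivic (ρ ℓ) 𝔤 ∧ RankLE 𝔤 r ∧ LatticeRat R (commutantDim 𝔤) H) :
    Semisimple (ρ ℓ) := by
  obtain ⟨γ, z, e, f, H, hd, hlab, hc⟩ := labels_at h R hRr ℓ T hne τ hτ
  rcases hc _ hm with ⟨Δ₀, hΔ₀, hdim⟩ | ⟨hpol, hdu⟩ | ⟨𝔤, hmot, hrk, hlat⟩
  · rw [centralizerDim_eq] at hdim
    exact semi_of_labels hd hlab hΔ₀ (((hdim.trans (com_leS Δ₀)).trans
      (comS_leM Δ₀)).trans (comM_le Δ₀))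
  · exact semi_pol h hd hlab hdu hpol
  · exact semi_of_latticeRat h.pos hmot hrk (h.cont ℓ) hd hlab hlat le_rfl

end

/-- a lattice condition with fewer groups `B` to be considered is weaker -/
theorem latticeRat_of_full {n : ℕ} {R : Set (Fin n → ℤ)} {m : ℕ}
    {H : Subgroup (Equiv.Perm (Fin n))} (h : LatticeFull R m H) : LatticeRat R m H :=
  fun B hB hm b hb i => ⟨1, one_ne_zero, by rw [one_smul]; exact h B hB hm b hb i⟩

/-- if nonzero multiples of all the vectors `e_i - e_j` are contained in the lattice -/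
theorem latticeRat_of_all {n : ℕ} {R : Set (Fin n → ℤ)} (m : ℕ)
    {H : Subgroup (Equiv.Perm (Fin n))} (h : ∀ i j, ∃ k : ℤ, k ≠ 0 ∧
      k • (Pi.single i 1 - Pi.single j 1 : Fin n → ℤ) ∈ latticeOf R H) : LatticeRat R m H :=
  fun B _ _ b _ i => h i (b i)

theorem latticeRat_mono {n : ℕ} {R : Set (Fin n → ℤ)} {m : ℕ}
    {W H : Subgroup (Equiv.Perm (Fin n))} (hWH : W ≤ H) (h : LatticeRat R m W) :
    LatticeRat R m H := by
  intro B hB hm b hb i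
  obtain ⟨k, hk, h1⟩ := h B (hWH.trans hB) hm b hb i
  refine ⟨k, hk, ?_⟩
  refine AddSubgroup.closure_mono ?_ h1
  rintro v (hv | ⟨a, ha, i, rfl⟩)
  · exact Or.inl hv
  · exact Or.inr ⟨a, hWH ha, i, rfl⟩

end Pool.Agent.R931.ZG
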