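import Mathlib
import Pool.Agent.R931.ZG.Dual
import Pool.Agent.R931.ZG.Fix
import Pool.Agent.Y960.RM.Nat

/-!
# The lattice condition implies the semisimplicity and the Mumford-Tate conjecture at `ℓ`
-/

set_option autoImplicit false
set_option linter.unusedSectionVars false
set_option linter.unusedVariables false

namespace Pool.Agent.R931.ZG

open Function Polynomial Module NumberField IsDedekindDomain TensorProduct Pool.Agent.TH118.SG
  Pool.Agent.Y114.RM Pool.Agent.Y114.MU Pool.Agent.Y114.TF Pool.Agent.Y114.GF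
  Pool.Agent.H204R3.GP Pool.Agent.R931.GD Pool.Agent.Y142.ZO Pool.Agent.Y142.ZI
  Pool.Agent.Y142.SS Pool.Agent.R931.BD Pool.Agent.R931.IR Pool.Agent.R931.ZL Pool.Agent.R931.ZM
  Pool.Agent.R931.PD Pool.Agent.R931.ZF
open Pool.Agent.W569.FM Pool.Agent.W571.FM Pool.Agent.Y115.R Pool.Agent.Y115.T Pool.Agent.Y115.Chi
open Pool.Agent.Y497.ZO (Mt)
open Pool.Agent.Y936.SS (Om)

section

variable {K : Type} [Field K] [NumberField K] {Γ : Type} [Group Γ] [TopologicalSpace Γ]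
  [IsTopologicalGroup Γ] [CompactSpace Γ] {s : Gal(AlgebraicClosure K/K) →* Γ} {N : ℕ} {wt : ℤ}
  {c r : ℕ} {S : Set (HeightOneSpectrum (𝓞 K))} {P : HeightOneSpectrum (𝓞 K) → ℚ[X]}
  {ρ : ∀ (ℓ : ℕ) [Fact ℓ.Prime], Rep1 Γ N ℓ} {ℓ : ℕ} [Fact ℓ.Prime] {R : Set (Fin N → ℤ)}

/-- the lattice condition implies the semisimplicity and the statement on the Tate tensors -/
theorem full_of_lattice2 (hN : 0 < N) {𝔤 : End1 N ℓ} (hmot : Motivic (ρ ℓ) 𝔤)
    (hrk : RankAtMost (k := ℚ_[ℓ]) (V := ∀ _ : Unit, Fin N → ℚ_[ℓ]) 𝔤 r) (hcont : Conts (ρ ℓ))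
    {γ : Γ} {z : Fin N → Om ℓ}
    {e : Basis (Fin N) (Om ℓ) (Fin N → Om ℓ)} {f : ℚ_[ℓ][X]} (hd : OmDat ρ s S P r ℓ R γ z e f)
    {H : Subgroup (Equiv.Perm (Fin N))} (hlab : LabelsO ρ ℓ e H) {m : ℕ}
    (hlat : LatticeFull R m H) (hend : m ≤ commutantDim 𝔤) :
    Semisimple (ρ ℓ) ∧ TateTensorsOf (ρ ℓ) 𝔤 := by
  classical
  have hNe : Nonempty (Fin N) := ⟨⟨0, hN⟩⟩
  obtain ⟨j, hj⟩ := exists_j ℓ ℚ_[ℓ] ℚ (algebraMap ℚ ℚ_[ℓ]) (algebraMap ℚ ℂ)
  let alg : Algebra ℚ_[ℓ] ℂ := j.toAlgebra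
  let σ : Om ℓ →ₐ[ℚ_[ℓ]] ℂ := IsAlgClosed.lift
  have hσ : Injective σ := σ.toRingHom.injective
  have h := inputs
  have h2 := inputs2
  set W₀ : Type := ∀ _ : Unit, Fin N → ℚ_[ℓ] with hW₀
  obtain ⟨L, hL, hLie, hAd, hlog⟩ := h.lie ℚ_[ℓ] (∀ _ : Unit, Fin N → ℚ_[ℓ]) _ (sumRep (ρ ℓ))
  have hLG : L ≤ 𝔤 := fun X hX => hmot.algebraic X fun m φ hφ =>
    ((hL X).1 hX).2 m φ (hmot.tate m φ hφ)
  obtain ⟨Δ', hΔ', hcommΔ⟩ := h2.tfr ℓ Unit (fun _ => N) _ (ρ ℓ) (fun i => hcont i) (comm L)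
    (comm_conj (sumRep (ρ ℓ)) hAd) (comm_order (sumRep (ρ ℓ)) h h2 hL)
  obtain ⟨Δ₁, hΔ₁, hfix⟩ := exists_fix hAd (finite_lstab hL hd)
  -- the eigenvectors over the complex numbers
  set gC : End ℂ (ℂ ⊗[ℚ_[ℓ]] (∀ _ : Unit, Fin N → ℚ_[ℓ])) := (sumRep (ρ ℓ) γ).baseChange ℂ with hgC
  let v : Fin N → ℂ ⊗[ℚ_[ℓ]] (∀ _ : Unit, Fin N → ℚ_[ℓ]) :=
    fun i => (Phi ℓ N).symm fun l => σ (e i l)
  have hev : ∀ (A : Mt ℓ N) (i : Fin N) (lam : Om ℓ), mOm ℓ N A (e i) = lam • e i →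
      (lin A).baseChange ℂ (v i) = σ lam • v i := by
    intro A i lam hA
    apply (Phi ℓ N).injective
    rw [Phi_lin, map_smul, LinearEquiv.apply_symm_apply, mO_sig]
    change (fun l => σ (mOm ℓ N A (e i) l)) = _
    rw [hA]
    funext l
    rw [Pi.smul_apply, smul_eq_mul, map_mul, Pi.smul_apply, smul_eq_mul]
  have hgv : ∀ i, gC (v i) = σ (z i) • v i := by
    intro i
    rw [hgC, ZL.sumRep_eq]
    exact hev _ i _ (hd.eig i)
  have hv0 : ∀ i, v i ≠ 0 := by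
    intro i h0
    apply e.ne_zero i
    have h3 := congrArg (Phi ℓ N) h0
    rw [LinearEquiv.apply_symm_apply, map_zero] at h3
    funext l
    have h4 : σ (e i l) = 0 := congrFun h3 l
    exact hσ (by rw [h4, Pi.zero_apply, map_zero])
  have hli : LinearIndependent ℂ v := Module.End.eigenvectors_linearIndependent' gC
    (fun i => σ (z i)) (hσ.comp hd.log.zinj) v fun i =>
      ⟨End.mem_eigenspace_iff.2 (hgv i), hv0 i⟩
  have hcard : Fintype.card (Fin N) = finrank ℂ (ℂ ⊗[ℚ_[ℓ]] (∀ _ : Unit, Fin N → ℚ_[ℓ])) := by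
    rw [(Phi ℓ N).finrank_eq, Module.finrank_fin_fun, Fintype.card_fin]
  let b : Basis (Fin N) ℂ (ℂ ⊗[ℚ_[ℓ]] (∀ _ : Unit, Fin N → ℚ_[ℓ])) :=
    basisOfLinearIndependentOfCardEqFinrank hli hcard
  have hbv : ∀ i, b i = v i := fun i => by
    rw [coe_basisOfLinearIndependentOfCardEqFinrank]
  -- the torus
  obtain ⟨d, hdr⟩ := hd.rank
  have hcen := torus_cen (sumRep (ρ ℓ)) h h2.jord h2.cartan hL hLG hmot.bracket hmot.nondeg
    hmot.algebraic hrk γ (fun i => σ (z (d i))) (fun i => End.hasEigenvalue_of_hasEigenvector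
      ⟨End.mem_eigenspace_iff.2 (hgv (d i)), hv0 (d i)⟩) (fun e' he' => by
      have h3 : ∏ i, z (d i) ^ e' i = 1 := by
        apply hσ
        rw [map_prod, map_one, ← he']
        exact Finset.prod_congr rfl fun i _ => map_zpow₀ σ _ _
      have hz0 : ∀ i, z i ≠ 0 := fun i => ne_zero_of_root (ρ ℓ) γ (hd.log.zroot i)
      exact hdr e' ((mem_mrel_comp hz0 d e').1 ⟨1, one_pos, by rw [pow_one]; exact h3⟩))
  set t := tor gC with ht
  have htL : t ≤ bcS ℂ L := tor_le (sumRep (ρ ℓ)) h hL γ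
  have hLC : IsLie (bcS ℂ L) := (h.bc ℚ_[ℓ] ℂ _ L).2.1 hLie
  have hGC : IsLie (bcS ℂ 𝔤) := (h.bc ℚ_[ℓ] ℂ _ 𝔤).2.1 hmot.bracket
  have hLGC : bcS ℂ L ≤ bcS ℂ 𝔤 := bcS_mono hLG
  have hNG : NonDeg (bcS ℂ 𝔤) := (h.bc ℚ_[ℓ] ℂ _ 𝔤).2.2.1 hmot.nondeg
  have TG : Pool.Agent.Y212.RM.Tor (bcS ℂ 𝔤) t :=
    ⟨hGC, hNG, htL.trans hLGC, tor_diag gC, tor_comm gC, hcen⟩
  -- the weights
  let χ : Fin N → t → ℂ := fun i a => b.repr ((a : End ℂ _) (b i)) i
  have hχθ : ∀ a : t, ∃ θ : Additive ℂˣ →+ ℂ, ∀ i, (a : End ℂ _) (b i) = ext0 θ (σ (z i)) • b i := by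
    rintro ⟨a, θ, hθ⟩
    refine ⟨θ, fun i => hθ (σ (z i)) (b i) ?_⟩
    refine Pool.Agent.TH118.SG.mem_gen.2 ⟨1, ?_⟩
    rw [pow_one, LinearMap.sub_apply, Module.algebraMap_end_apply, sub_eq_zero, hbv]
    exact hgv i
  have hχ : ∀ a : t, ∃ θ : Additive ℂˣ →+ ℂ, ∀ i, χ i a = ext0 θ (σ (z i)) := by
    intro a
    obtain ⟨θ, hθ⟩ := hχθ a
    refine ⟨θ, fun i => ?_⟩
    change b.repr ((a : End ℂ _) (b i)) i = _
    rw [hθ, map_smul, Finsupp.smul_apply, Basis.repr_self, Finsupp.single_eq_same, smul_eq_mul,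
      mul_one]
  have hb : ∀ (a : t) i, (a : End ℂ _) (b i) = χ i a • b i := by
    intro a i
    obtain ⟨θ, hθ⟩ := hχθ a
    change _ = b.repr ((a : End ℂ _) (b i)) i • b i
    rw [hθ, map_smul, Finsupp.smul_apply, Basis.repr_self, Finsupp.single_eq_same, smul_eq_mul,
      mul_one]
  let Ξ : (Fin N → ℤ) →+ (t → ℂ) :=
    { toFun := fun n a => ∑ i, (n i : ℂ) * χ i a
      map_zero' := by
        funext a
        simp
      map_add' := fun m n => by
        funext a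
        rw [Pi.add_apply, ← Finset.sum_add_distrib]
        refine Finset.sum_congr rfl fun i _ => ?_
        rw [Pi.add_apply, Int.cast_add, add_mul] }
  have hΞ1 : ∀ i, Ξ (Pi.single i 1) = χ i := by
    intro i
    funext a
    change ∑ l, ((Pi.single i (1 : ℤ) : Fin N → ℤ) l : ℂ) * χ l a = χ i a
    rw [Finset.sum_eq_single i]
    · rw [Pi.single_eq_same, Int.cast_one, one_mul]
    · intro l _ hl
      rw [Pi.single_eq_of_ne hl, Int.cast_zero, zero_mul]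
    · intro hi
      exact absurd (Finset.mem_univ i) hi
  have hΞR : ∀ n ∈ R, Ξ n = 0 := by
    intro n hn
    rw [← hd.rel] at hn
    obtain ⟨m', hm', hn⟩ := hn
    funext a
    obtain ⟨θ, hθ⟩ := hχ a
    change ∑ i, (n i : ℂ) * χ i a = 0
    have hz0 : ∀ i, σ (z i) ≠ 0 := fun i h0 =>
      ne_zero_of_root (ρ ℓ) γ (hd.log.zroot i) (hσ (by rw [h0, map_zero]))
    have h3 : (∏ i, σ (z i) ^ n i) ^ m' = 1 := by
      rw [← map_one σ, ← hn, map_pow, map_prod]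
      congr 1
      exact Finset.prod_congr rfl fun i _ => (map_zpow₀ σ _ _).symm
    have h4 := ext0_pow θ (∏ i, σ (z i) ^ n i) hm'
    rw [h3, ext0_one, ext0_prod θ _ _ fun i _ => zpow_ne_zero _ (hz0 i)] at h4
    have h5 : (m' : ℂ) ≠ 0 := Nat.cast_ne_zero.2 hm'.ne'
    have h6 := (mul_eq_zero.1 h4.symm).resolve_left h5
    rw [← h6]
    refine Finset.sum_congr rfl fun i _ => ?_
    rw [ext0_zpow θ (hz0 i), hθ]
  -- the coordinates
  have hrepr : ∀ (A : Mt ℓ N) (i j : Fin N), b.repr ((lin A).baseChange ℂ (b i)) j =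
      σ (e.repr (mOm ℓ N A (e i)) j) := by
    intro A i j
    have h3 : (lin A).baseChange ℂ (b i) = ∑ l, σ (e.repr (mOm ℓ N A (e i)) l) • b l := by
      apply (Phi ℓ N).injective
      rw [Phi_lin, hbv, LinearEquiv.apply_symm_apply, mO_sig, map_sum]
      funext l
      rw [Finset.sum_apply]
      have h4 : ∀ l', (Phi ℓ N (σ (e.repr (mOm ℓ N A (e i)) l') • b l')) l =
          σ (e.repr (mOm ℓ N A (e i)) l' * e l' l) := by
        intro l'
        rw [map_smul, hbv, LinearEquiv.apply_symm_apply, Pi.smul_apply, smul_eq_mul, map_mul]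
      rw [Finset.sum_congr rfl fun l' _ => h4 l', ← map_sum]
      congr 1
      conv_lhs => rw [← e.sum_repr (mO ℚ_[ℓ] (Om ℓ) (Fin N) A (e i))]
      rw [Finset.sum_apply]
      rfl
    rw [h3, b.repr_sum_self]
  -- the dual element of the sum of the roots of `L`
  obtain ⟨d₀, hd₀, hrep⟩ := exists_dual_sum TG hLC htL
  have hflag : ∀ a ∈ H, ∀ i₀, ∃ x : ℝ, 0 ≤ x ∧ χ (a i₀) ⟨d₀, hd₀⟩ - χ i₀ ⟨d₀, hd₀⟩ = x := by
    intro a ha i₀
    let cl : Set (Fin N) := {l | ∃ x : ℝ, 0 ≤ x ∧ χ l ⟨d₀, hd₀⟩ - χ i₀ ⟨d₀, hd₀⟩ = x}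
    let U : Submodule (Om ℓ) (Fin N → Om ℓ) :=
      { carrier := {u | ∀ j, j ∉ cl → e.repr u j = 0}
        add_mem' := fun {u w} hu hw j hj => by
          rw [map_add, Finsupp.add_apply, hu j hj, hw j hj, add_zero]
        zero_mem' := fun j _ => by rw [map_zero, Finsupp.zero_apply]
        smul_mem' := fun a u hu j hj => by
          rw [map_smul, Finsupp.smul_apply, hu j hj, smul_zero] }
    have hU : U ∈ lstab L := by
      intro A hA u hu j hj
      have h3 : e.repr (mOm ℓ N A u) j = ∑ i, e.repr u i * e.repr (mOm ℓ N A (e i)) j := by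
        conv_lhs => rw [← e.sum_repr u]
        rw [map_sum, map_sum, Finsupp.finsetSum_apply]
        exact Finset.sum_congr rfl fun i _ => by
          rw [map_smul, map_smul, Finsupp.smul_apply, smul_eq_mul]
      rw [h3]
      refine Finset.sum_eq_zero fun i _ => ?_
      by_cases hi : i ∈ cl
      · by_contra hne
        have h4 : e.repr (mOm ℓ N A (e i)) j ≠ 0 := fun h5 => hne (by rw [h5, mul_zero])
        have h5 : b.repr ((lin A).baseChange ℂ (b i)) j ≠ 0 := by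
          rw [hrepr]
          exact fun h6 => h4 (hσ (by rw [h6, map_zero]))
        obtain ⟨x, hx, hxe⟩ := coord_nonneg Pool.Agent.Y960.RM.nat TG hLGC hLC htL b hb hd₀ hrep
          (mem_bcS hA) h5
        obtain ⟨y, hy, hye⟩ := hi
        refine hj ⟨x + y, by positivity, ?_⟩
        rw [Complex.ofReal_add, ← hxe, ← hye]
        ring
      · rw [hu i hi, zero_mul]
    have hmem : ∀ i, e i ∈ U ↔ i ∈ cl := by
      intro i
      constructor
      · intro h3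
        by_contra h4
        have h5 := h3 i h4
        rw [Basis.repr_self, Finsupp.single_eq_same] at h5
        exact one_ne_zero h5
      · intro h3 j hj
        rw [Basis.repr_self, Finsupp.single_eq_of_ne]
        rintro rfl
        exact hj h3
    have h3 := hlab Δ₁ hΔ₁ U (hfix U hU) a ha i₀
    rw [hmem, hmem] at h3
    exact h3.2 ⟨0, le_rfl, by rw [sub_self, Complex.ofReal_zero]⟩
  have hflag0 : ∀ a ∈ H, ∀ i, χ (a i) ⟨d₀, hd₀⟩ = χ i ⟨d₀, hd₀⟩ := by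
    intro a ha i
    obtain ⟨x, hx, hxe⟩ := hflag a ha i
    obtain ⟨y, hy, hye⟩ := hflag a⁻¹ (H.inv_mem ha) (a i)
    have h3 : a⁻¹ (a i) = i := Equiv.symm_apply_apply a i
    rw [h3] at hye
    have h4 : ((x + y : ℝ) : ℂ) = 0 := by
      rw [Complex.ofReal_add, ← hxe, ← hye]
      ring
    have h5 : x + y = 0 := Complex.ofReal_eq_zero.1 h4
    have h6 : x = 0 := by linarith
    rw [h6, Complex.ofReal_zero] at hxe
    exact sub_eq_zero.1 hxe
  have hlat0 : ∀ n ∈ latticeOf R H, Ξ n ⟨d₀, hd₀⟩ = 0 := by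
    intro n hn
    induction hn using AddSubgroup.closure_induction with
    | mem n hn =>
      rcases hn with hn | ⟨a, ha, i, rfl⟩
      · rw [hΞR n hn, Pi.zero_apply]
      · rw [map_sub, hΞ1, hΞ1, Pi.sub_apply, hflag0 a ha i, sub_self]
    | zero => rw [map_zero, Pi.zero_apply]
    | add x y _ _ hx hy => rw [map_add, Pi.add_apply, hx, hy, add_zero]
    | neg x _ hx => rw [map_neg, Pi.neg_apply, hx, neg_zero]
  have hroot : ∀ (α : t → ℂ) (x : End ℂ (ℂ ⊗[ℚ_[ℓ]] (∀ _ : Unit, Fin N → ℚ_[ℓ]))),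
      x ∈ bcS ℂ 𝔤 → x ≠ 0 →
      (∀ a : t, (a : End ℂ (ℂ ⊗[ℚ_[ℓ]] (∀ _ : Unit, Fin N → ℚ_[ℓ]))) * x -
        x * (a : End ℂ (ℂ ⊗[ℚ_[ℓ]] (∀ _ : Unit, Fin N → ℚ_[ℓ]))) = α a • x) →
      ∃ i l, χ l = χ i + α ∧ (Pi.single i 1 - Pi.single l 1 : Fin N → ℤ) ∈ latticeOf R H := by
    intro α x hx hx0 hw
    obtain ⟨i, hi⟩ : ∃ i, x (b i) ≠ 0 := by
      by_contra hcon
      push Not at hcon
      exact hx0 (b.ext fun i => by rw [hcon i, LinearMap.zero_apply])
    obtain ⟨l, hl⟩ : ∃ l, b.repr (x (b i)) l ≠ 0 := by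
      by_contra hcon
      push Not at hcon
      apply hi
      rw [← b.sum_repr (x (b i))]
      exact Finset.sum_eq_zero fun l _ => by rw [hcon l, zero_smul]
    have h3 : χ l = χ i + α := wt_coord b hb hw hl
    have hblock : Equiv.swap i l ∈ blockG (N := N) (ℓ := ℓ) 𝔤 e := by
      have h4 : ∀ A ∈ comG (N := N) (ℓ := ℓ) 𝔤,
          e.repr (mOm ℓ N A (e l)) l = e.repr (mOm ℓ N A (e i)) i := by
        intro A hA
        have h5 := (comG_diag hd hlab hmot A hA).1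
        have h6 := bcS_comm (C := ℂ) hA x hx
        have h7 := LinearMap.congr_fun h6 (b i)
        rw [Module.End.mul_apply, Module.End.mul_apply, hbv, hev A i _ (h5 i), map_smul,
          ← hbv] at h7
        have h8 := repr_diag b (X := (lin A).baseChange ℂ)
          (y := fun i => σ (e.repr (mOm ℓ N A (e i)) i)) (fun i => by
            rw [hbv]
            exact hev A i _ (h5 i)) (x (b i)) l
        rw [← h7, map_smul, Finsupp.smul_apply, smul_eq_mul] at h8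
        exact hσ (mul_right_cancel₀ hl h8).symm
      intro A hA l'
      by_cases h5 : l' = i
      · rw [h5, Equiv.swap_apply_left]
        exact h4 A hA
      · by_cases h6 : l' = l
        · rw [h6, Equiv.swap_apply_right]
          exact (h4 A hA).symm
        · rw [Equiv.swap_apply_of_ne_of_ne h5 h6]
    have h4 := hlat _ (le_blockG hd hlab hmot) (orbit_blockG hd hlab hmot hend) _ hblock i
    rw [Equiv.swap_apply_left] at h4
    exact ⟨i, l, h3, h4⟩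
  have hNL : NonDeg (bcS ℂ L) := by
    refine nonDeg_of_trace TG hLGC hLC htL fun ψ x hx f' hf' h' hh' hx0 hh0 hw e1 e2 e3 =>
      (wt_nonneg Pool.Agent.Y960.RM.nat hLC htL b hb hd₀ hrep hx hh' hh0 hw e1 e2 e3).2 ?_
    obtain ⟨i, l, h3, h4⟩ := hroot ψ x (hLGC hx) hx0 hw
    have h5 := hlat0 _ h4
    rw [map_sub, hΞ1, hΞ1, h3, sub_add_cancel_left, Pi.neg_apply, neg_eq_zero] at h5
    exact h5
  have TL : Pool.Agent.Y212.RM.Tor (bcS ℂ L) t :=
    ⟨hLC, hNL, htL, tor_diag gC, tor_comm gC, fun x hx => hcen x (hLGC hx)⟩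
  set S' := AddSubgroup.closure {β | IsWt (bcS ℂ L) t β} with hS'
  -- the classes of the weights are stable under `H`
  have hlabel : ∀ a ∈ H, ∀ i₀, χ (a i₀) - χ i₀ ∈ S' := by
    intro a ha i₀
    let cl : Set (Fin N) := {l | χ l - χ i₀ ∈ S'}
    have hcl : ∀ i l, χ l - χ i ∈ S' → (i ∈ cl ↔ l ∈ cl) := by
      intro i l hil
      constructor
      · intro h3
        have h4 := S'.add_mem hil h3
        rwa [sub_add_sub_cancel] at h4
      · intro h3
        have h4 := S'.sub_mem h3 hil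
        rwa [sub_sub_sub_cancel_left] at h4
    let QE : End (Om ℓ) (Fin N → Om ℓ) := e.constr (Om ℓ) fun i => if i ∈ cl then e i else 0
    have hQE : ∀ i, QE (e i) = if i ∈ cl then e i else 0 := fun i => e.constr_basis (Om ℓ) _ i
    let Qm : Matrix (Fin N) (Fin N) (Om ℓ) := LinearMap.toMatrix' QE
    have hQm : ∀ u, Qm.mulVec u = QE u := fun u => by
      rw [← Matrix.toLin'_apply, Matrix.toLin'_toMatrix']
    let QC : End ℂ (ℂ ⊗[ℚ_[ℓ]] (∀ _ : Unit, Fin N → ℚ_[ℓ])) :=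
      (Phi ℓ N).symm.conj (Matrix.toLin' (Qm.map σ))
    have hQCapp : ∀ u, Phi ℓ N (QC u) = (Qm.map σ).mulVec (Phi ℓ N u) := by
      intro u
      change Phi ℓ N ((Phi ℓ N).symm.conj (Matrix.toLin' (Qm.map σ)) u) = _
      rw [LinearEquiv.conj_apply_apply, LinearEquiv.apply_symm_apply, LinearEquiv.symm_symm,
        Matrix.toLin'_apply]
    have hsig : ∀ u : Fin N → Om ℓ, (Qm.map σ).mulVec (fun l => σ (u l)) =
        fun l => σ (Qm.mulVec u l) := by
      intro u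
      funext i
      rw [Matrix.mulVec, Matrix.mulVec, dotProduct, dotProduct, map_sum]
      exact Finset.sum_congr rfl fun l _ => by rw [map_mul, Matrix.map_apply]
    have hQC : ∀ i, QC (b i) = if i ∈ cl then b i else 0 := by
      intro i
      apply (Phi ℓ N).injective
      rw [hQCapp, hbv, LinearEquiv.apply_symm_apply, hsig, hQm, hQE]
      split_ifs
      · rw [LinearEquiv.apply_symm_apply]
      · rw [map_zero]
        funext l
        rw [Pi.zero_apply, map_zero, Pi.zero_apply]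
    have hcom : ∀ X ∈ bcS ℂ L, X * QC = QC * X :=
      comm_of_closed TL b hb hcl (fun i hi => by rw [hQC, if_pos hi])
        fun i hi => by rw [hQC, if_neg hi]
    have hfun : ∀ π : Om ℓ →ₗ[ℚ_[ℓ]] ℚ_[ℓ], lin (Qm.map π) ∈ comm L := by
      intro π X hX
      obtain ⟨A, rfl⟩ := lin_surj X
      rw [← lin_mul, ← lin_mul]
      congr 1
      refine functionals_of_comm (comm_of_sig σ ?_) π
      apply Matrix.toLin'.injective
      refine LinearMap.ext fun u => ?_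
      have h3 := congrArg (Phi ℓ N) (LinearMap.congr_fun (hcom _ (mem_bcS hX)) ((Phi ℓ N).symm u))
      rw [Module.End.mul_apply, Module.End.mul_apply, Phi_lin, hQCapp, hQCapp, Phi_lin,
        LinearEquiv.apply_symm_apply, mO_apply', mO_apply', Matrix.mulVec_mulVec,
        Matrix.mulVec_mulVec] at h3
      rw [Matrix.toLin'_apply, Matrix.toLin'_apply]
      exact h3
    have hW : ∀ δ ∈ Δ', ∀ u ∈ LinearMap.ker (QE - 1), mOm ℓ N (matRep (ρ ℓ) δ) u ∈
        LinearMap.ker (QE - 1) := by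
      intro δ hδ u hu
      have h3 : (matRep (ρ ℓ) δ).map (algebraMap ℚ_[ℓ] (Om ℓ)) * Qm =
          Qm * (matRep (ρ ℓ) δ).map (algebraMap ℚ_[ℓ] (Om ℓ)) := by
        refine comm_of_functionals fun π => ?_
        have h4 := hcommΔ δ hδ _ (hfun π)
        rw [ZL.sumRep_eq, ← lin_mul, ← lin_mul] at h4
        exact lin_inj h4
      rw [LinearMap.mem_ker, LinearMap.sub_apply, Module.End.one_apply, sub_eq_zero] at hu ⊢
      have h4 : mOm ℓ N (matRep (ρ ℓ) δ) u =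
          ((matRep (ρ ℓ) δ).map (algebraMap ℚ_[ℓ] (Om ℓ))).mulVec u := rfl
      rw [h4, ← hQm, Matrix.mulVec_mulVec, ← h3, ← Matrix.mulVec_mulVec, hQm, hu]
    have hmem : ∀ i, e i ∈ LinearMap.ker (QE - 1) ↔ i ∈ cl := by
      intro i
      rw [LinearMap.mem_ker, LinearMap.sub_apply, Module.End.one_apply, sub_eq_zero, hQE]
      split_ifs with h3
      · exact ⟨fun _ => h3, fun _ => rfl⟩
      · exact ⟨fun h4 => absurd h4.symm (e.ne_zero i), fun h4 => absurd h4 h3⟩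
    have h3 := hlab Δ' hΔ' _ hW a ha i₀
    rw [hmem, hmem] at h3
    refine h3.2 ?_
    change χ i₀ - χ i₀ ∈ S'
    rw [sub_self]
    exact S'.zero_mem
  have hlatS : latticeOf R H ≤ S'.comap Ξ := by
    rw [latticeOf, AddSubgroup.closure_le]
    rintro n (hn | ⟨a, ha, i, rfl⟩)
    · change Ξ n ∈ S'
      rw [hΞR n hn]
      exact S'.zero_mem
    · change Ξ (Pi.single i 1 - Pi.single (a i) 1) ∈ S'
      rw [map_sub, hΞ1, hΞ1, ← neg_sub]
      exact S'.neg_mem (hlabel a ha i)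
  have hfull : bcS ℂ L = bcS ℂ 𝔤 := by
    refine eq_of_span TG TL hLGC fun α x hx hx0 hw => ?_
    obtain ⟨i, l, h3, h4⟩ := hroot α x hx.1 hx0 hw
    have h5 : Ξ (Pi.single i 1 - Pi.single l 1) ∈ S' := hlatS h4
    rw [map_sub, hΞ1, hΞ1, h3, sub_add_cancel_left] at h5
    have h6 := S'.neg_mem h5
    rwa [neg_neg] at h6
  have hLeq : L = 𝔤 := (h.bc ℚ_[ℓ] ℂ _ 𝔤).2.2.2.2.1 L hLG hfull
  exact ⟨h.concl ℚ_[ℓ] Unit (fun _ => Fin N → ℚ_[ℓ]) Γ (ρ ℓ) 𝔤 hmot fun X hX =>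
    (hL X).1 (hLeq ▸ hX), fun m φ =>
      ⟨fun hφ X hX => ((hL X).1 (hLeq ▸ hX)).2 m φ hφ, hmot.tate m φ⟩⟩

end

end Pool.Agent.R931.ZG
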