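import Mathlib
import Pool.Agent.R931.ZG.Nss
import Pool.Agent.R931.ZG.AtEx
import Pool.Agent.R931.ZF.SplitLaw

/-!
# The laws for the Mumford-Tate conjecture with the lattice condition
-/

set_option autoImplicit false
set_option linter.unusedSectionVars false
set_option linter.unusedVariables false

namespace Pool.Agent.R931.ZG

open Function Polynomial Module NumberField IsDedekindDomain TensorProduct Pool.Agent.TH118.SG
  Pool.Agent.Y114.RM Pool.Agent.Y114.MU Pool.Agent.Y114.TF Pool.Agent.Y114.GF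
  Pool.Agent.H204R3.GP Pool.Agent.R931.GD Pool.Agent.Y142.ZO Pool.Agent.Y142.ZI
  Pool.Agent.Y142.SS Pool.Agent.R931.BD Pool.Agent.R931.ZL Pool.Agent.R931.ZM
  Pool.Agent.R931.PD Pool.Agent.R931.ZF
open Pool.Agent.Y936.SS (Om)

section

variable {K : Type} [Field K] [NumberField K] {Γ : Type} [Group Γ] [TopologicalSpace Γ]
  [IsTopologicalGroup Γ] [CompactSpace Γ] {s : Gal(AlgebraicClosure K/K) →* Γ} {N : ℕ} {wt : ℤ}
  {c r : ℕ} {S : Set (HeightOneSpectrum (𝓞 K))} {P : HeightOneSpectrum (𝓞 K) → ℚ[X]}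
  {ρ : ∀ (ℓ : ℕ) [Fact ℓ.Prime], Rep1 Γ N ℓ}

/-- the zero-one law -/
theorem main_law {𝔤 : ∀ (ℓ : ℕ) [Fact ℓ.Prime], End1 N ℓ} (h' : Setup K Γ s N wt c r S P ρ 𝔤)
    (R : Set (Fin N → ℤ)) (hRr : RankGE r R)
    {J : Type} (T : J → Set (Equiv.Perm (Fin N))) (hne : ∃ j, (T j).Nonempty)
    (p : J → ℕ) [∀ j, Fact (p j).Prime] (τ : ∀ j, Gal(PadicAlgCl (p j)/ℚ_[p j]))
    (hτ : ∀ j, ∀ a ∈ T j, TypeOccurs s (ρ (p j)) R (τ j) a)
    (m : ℕ) (hm : Forces (relAut R) T (LatticeFull R m))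
    (hend : ∀ (ℓ : ℕ) [Fact ℓ.Prime], m ≤ commutantDim (𝔤 ℓ)) :
    HasDensityZero {ℓ | ∃ _ : Fact ℓ.Prime, ¬ (Semisimple (ρ ℓ) ∧ TateTensorsOf (ρ ℓ) (𝔤 ℓ))} := by
  classical
  have h := setup_of_motivic h'
  refine main_F h R hRr T hne p τ hτ
    (fun ℓ _ => Semisimple (ρ ℓ) ∧ TateTensorsOf (ρ ℓ) (𝔤 ℓ)) ∅ Set.finite_empty ?_
  intro G M hGA hMG hnorm hmeet hgood ℓ hℓp hℓ γ z e f H g y hd hg hHA hyA hyn hmc hlab
  exact full_of_lattice2 h.pos (h'.motivic ℓ) (h'.rank ℓ) (h'.cont ℓ) hd hlab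
    (hm G M H g y hGA hMG hnorm hmeet hg hHA hyA hyn hmc) (hend ℓ)

/-- the law for the primes which split in a number field -/
theorem main_lawS {𝔤 : ∀ (ℓ : ℕ) [Fact ℓ.Prime], End1 N ℓ} (h' : Setup K Γ s N wt c r S P ρ 𝔤)
    (R : Set (Fin N → ℤ)) (hRr : RankGE r R)
    {J : Type} (T : J → Set (Equiv.Perm (Fin N))) (hne : ∃ j, (T j).Nonempty)
    (p : J → ℕ) [∀ j, Fact (p j).Prime] (τ : ∀ j, Gal(PadicAlgCl (p j)/ℚ_[p j]))
    (hτ : ∀ j, ∀ a ∈ T j, TypeOccurs s (ρ (p j)) R (τ j) a)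
    (m : ℕ) (hm : ForcesSplit (relAut R) T (LatticeFull R m))
    (hend : ∀ (ℓ : ℕ) [Fact ℓ.Prime], m ≤ commutantDim (𝔤 ℓ)) :
    ∃ f : ℤ[X], f.Monic ∧ HasDensityZero {ℓ | ∃ _ : Fact ℓ.Prime,
      (f.map (Int.castRingHom (ZMod ℓ))).Splits ∧
        ¬ (Semisimple (ρ ℓ) ∧ TateTensorsOf (ρ ℓ) (𝔤 ℓ))} := by
  classical
  have h := setup_of_motivic h'
  refine main_FS h R hRr T hne p τ hτ
    (fun ℓ _ => Semisimple (ρ ℓ) ∧ TateTensorsOf (ρ ℓ) (𝔤 ℓ)) ∅ Set.finite_empty ?_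
  intro hgood ℓ hℓp hℓ γ z e f H hd hD hlab
  exact full_of_lattice2 h.pos (h'.motivic ℓ) (h'.rank ℓ) (h'.cont ℓ) hd hlab (hD _ hm) (hend ℓ)

/-- the Mumford-Tate conjecture at a given prime -/
theorem main_law_at (h : SetupG K Γ s N wt c r S P ρ) (R : Set (Fin N → ℤ)) (hRr : RankGE r R)
    (ℓ : ℕ) [Fact ℓ.Prime] (T : Set (Equiv.Perm (Fin N))) (hne : T.Nonempty)
    (τ : Gal(PadicAlgCl ℓ/ℚ_[ℓ])) (hτ : ∀ a ∈ T, TypeOccurs s (ρ ℓ) R τ a)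
    (𝔤 : End1 N ℓ) (hmot : Motivic (ρ ℓ) 𝔤) (hrk : RankLE 𝔤 r) (m : ℕ)
    (hend : m ≤ commutantDim 𝔤) (hm : ForcesAt (relAut R) T (LatticeFull R m)) :
    Semisimple (ρ ℓ) ∧ TateTensorsOf (ρ ℓ) 𝔤 := by
  obtain ⟨γ, z, e, f, H, hd, hlab, hc⟩ := labels_at h R hRr ℓ T hne τ hτ
  exact full_of_lattice2 h.pos hmot hrk (h.cont ℓ) hd hlab (hc _ hm) hend

end

/-- `OrbitBound` is stronger than the lattice condition -/
theorem forces_of_orbitBound {n : ℕ} {J : Type} {R : Set (Fin n → ℤ)}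
    {T : J → Set (Equiv.Perm (Fin n))} {m : ℕ} (h : OrbitBound (relAut R) T m) :
    Forces (relAut R) T (LatticeFull R m) :=
  fun G M N g y h1 h2 h3 h4 h5 h6 h7 h8 h9 =>
    latticeFull_of_orbits R (h G M N g y h1 h2 h3 h4 h5 h6 h7 h8 h9)

/-- Let `A = W * Z` where `Z` is central in `A`, and suppose that for one `j₀` the types in `T j₀` contain `1`
and a set which generates `W` invariably.  Then it is sufficient that `W` satisfies the lattice condition. -/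
theorem forces_lattice2 {n : ℕ} {J : Type} {R : Set (Fin n → ℤ)}
    {W Z : Subgroup (Equiv.Perm (Fin n))} (hW : W ≤ relAut R)
    (hZ : Z ≤ relAut R) (hcen : ∀ z ∈ Z, ∀ a ∈ relAut R, a * z = z * a)
    (hA : ∀ a ∈ relAut R, ∃ w ∈ W, ∃ z ∈ Z, a = w * z)
    {T : J → Set (Equiv.Perm (Fin n))} {j₀ : J} {T₀ : Set (Equiv.Perm (Fin n))} (h1 : 1 ∈ T j₀)
    (hT₀ : T₀ ⊆ T j₀) (hT₀W : T₀ ⊆ W) (hgen : GeneratesInvariably W T₀) {m : ℕ}
    (hlat : LatticeFull R m W) : Forces (relAut R) T (LatticeFull R m) :=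
  forces_of_central hW hZ hcen hA h1 hT₀ hT₀W hgen fun _ h => latticeFull_mono h hlat

end Pool.Agent.R931.ZG
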